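import Mathlib

/-!
Pairs of colour sets that can be prescribed at the two ends of an edge of an outerplanar graph.
-/

namespace Pool.Agent.Q52.Near

/-- An integer interval with at most one integer removed (possibly empty). -/
def NI (S : Set ℤ) : Prop := ∃ lo hi h : ℤ, ∀ k, k ∈ S ↔ lo ≤ k ∧ k ≤ hi ∧ k ≠ h

/-- The negated set. -/
def Ng (A : Set ℤ) : Set ℤ := {k | -k ∈ A}

theorem mem_Ng (A : Set ℤ) (k : ℤ) : k ∈ Ng A ↔ -k ∈ A := Iff.rfl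

theorem Ng_Ng (A : Set ℤ) : Ng (Ng A) = A := by
  ext k; simp [Ng]

/-- The basic pairs `(A, B)` with `|A| = a` and `|B| = b`. -/
inductive L (a b : ℕ) (A B : Set ℤ) : Prop
  | c1a (s : ℤ) (hA : ∀ k, k ∈ A ↔ s ≤ k ∧ k < s + a)
      (hB : ∀ k, k ∈ B ↔ s + 1 ≤ k ∧ k < s + 1 + b)
  | c1b (s : ℤ) (hA : ∀ k, k ∈ A ↔ s + 1 ≤ k ∧ k < s + 1 + a)
      (hB : ∀ k, k ∈ B ↔ s ≤ k ∧ k < s + b)
  | c2 (s : ℤ) (h : ¬ (a = 1 ∧ b = 1)) (hA : ∀ k, k ∈ A ↔ s ≤ k ∧ k < s + a)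
      (hB : ∀ k, k ∈ B ↔ s ≤ k ∧ k < s + b)
  | c3 (s : ℤ) (hA : ∀ k, k ∈ A ↔ s ≤ k ∧ k < s + a)
      (hB : ∀ k, k ∈ B ↔ s - 2 < k + b ∧ k ≤ s - 2)
  | c4 (s : ℤ) (hA : ∀ k, k ∈ A ↔ s ≤ k ∧ k < s + a)
      (hB : ∀ k, k ∈ B ↔ s - 1 < k + b ∧ k ≤ s - 1)
  | c5 (r : ℤ) (hb : 2 ≤ b) (hA : ∀ k, k ∈ A ↔ r - 1 ≤ k ∧ k < r - 1 + a)
      (hB : ∀ k, k ∈ B ↔ k = r ∨ (r + 2 ≤ k ∧ k ≤ r + b))
  | c5s (r : ℤ) (ha : 2 ≤ a) (hA : ∀ k, k ∈ A ↔ k = r ∨ (r + 2 ≤ k ∧ k ≤ r + a))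
      (hB : ∀ k, k ∈ B ↔ r - 1 ≤ k ∧ k < r - 1 + b)
  | c8 (r : ℤ) (hb : 2 ≤ b) (hA : ∀ k, k ∈ A ↔ r - 1 < k + a ∧ k ≤ r - 1)
      (hB : ∀ k, k ∈ B ↔ k = r ∨ (r + 2 ≤ k ∧ k ≤ r + b))
  | c8s (r : ℤ) (ha : 2 ≤ a) (hA : ∀ k, k ∈ A ↔ k = r ∨ (r + 2 ≤ k ∧ k ≤ r + a))
      (hB : ∀ k, k ∈ B ↔ r - 1 < k + b ∧ k ≤ r - 1)
  | c9 (r : ℤ) (hb : 2 ≤ b) (hA : ∀ k, k ∈ A ↔ r - 2 < k + a ∧ k ≤ r - 2)
      (hB : ∀ k, k ∈ B ↔ k = r ∨ (r + 2 ≤ k ∧ k ≤ r + b))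
  | c9s (r : ℤ) (ha : 2 ≤ a) (hA : ∀ k, k ∈ A ↔ k = r ∨ (r + 2 ≤ k ∧ k ≤ r + a))
      (hB : ∀ k, k ∈ B ↔ r - 2 < k + b ∧ k ≤ r - 2)

/-- The family of admissible pairs. -/
def F (a b : ℕ) (A B : Set ℤ) : Prop := L a b A B ∨ L a b (Ng A) (Ng B)

theorem F_neg {a b : ℕ} {A B : Set ℤ} (h : F a b A B) : F a b (Ng A) (Ng B) := by
  rcases h with h | h
  · right; rw [Ng_Ng, Ng_Ng]; exact h
  · left; exact h

theorem NI_neg {S : Set ℤ} (h : NI S) : NI (Ng S) := by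
  obtain ⟨lo, hi, h, hS⟩ := h
  refine ⟨-hi, -lo, -h, fun k => ?_⟩
  rw [mem_Ng, hS]
  omega

/-- The conclusion of the splitting step: `e` says whether the edge `wj` is present. -/
def Step (a m n b : ℕ) (e : Prop) (A B : Set ℤ) : Prop :=
  ∃ x y : ℤ, ∃ A' P Q B' : Set ℤ, F a m A' P ∧ F n b Q B' ∧
    (∀ k, k ∈ A ↔ k = x ∨ k ∈ A') ∧ x ∉ A' ∧
    (∀ k, k ∈ B ↔ (e ∧ k = y) ∨ k ∈ B') ∧ (e → y ∉ B') ∧
    (∀ k, k ∈ P → k ≠ x ∧ k ∉ Q) ∧ x ∉ Q ∧ (e → y ≠ x ∧ y ∉ P ∧ y ∉ Q) ∧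
    NI {k | k = x ∨ (e ∧ k = y) ∨ k ∈ P ∨ k ∈ Q}

theorem Step_neg {a m n b : ℕ} {e : Prop} {A B : Set ℤ} (h : Step a m n b e (Ng A) (Ng B)) :
    Step a m n b e A B := by
  obtain ⟨x, y, A', P, Q, B', h1, h2, h3, h4, h5, h6, h7, h8, h9, h10⟩ := h
  refine ⟨-x, -y, Ng A', Ng P, Ng Q, Ng B', F_neg h1, F_neg h2, fun k => ?_, ?_, fun k => ?_,
    fun he => ?_, fun k hk => ?_, ?_, fun he => ?_, ?_⟩
  · have := h3 (-k)
    rw [mem_Ng, neg_neg] at this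
    rw [this, mem_Ng]
    constructor
    · rintro (h | h)
      · left; omega
      · right; exact h
    · rintro (h | h)
      · left; omega
      · right; exact h
  · rw [mem_Ng, neg_neg]; exact h4
  · have := h5 (-k)
    rw [mem_Ng, neg_neg] at this
    rw [this, mem_Ng]
    constructor
    · rintro (⟨he, h⟩ | h)
      · left; exact ⟨he, by omega⟩
      · right; exact h
    · rintro (⟨he, h⟩ | h)
      · left; exact ⟨he, by omega⟩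
      · right; exact h
  · rw [mem_Ng, neg_neg]; exact h6 he
  · have := h7 (-k) hk
    refine ⟨by omega, ?_⟩
    rw [mem_Ng]; exact this.2
  · rw [mem_Ng, neg_neg]; exact h8
  · obtain ⟨q1, q2, q3⟩ := h9 he
    refine ⟨by omega, ?_, ?_⟩
    · rw [mem_Ng, neg_neg]; exact q2
    · rw [mem_Ng, neg_neg]; exact q3
  · have := NI_neg h10
    obtain ⟨lo, hi, h, hS⟩ := this
    refine ⟨lo, hi, h, fun k => ?_⟩
    rw [← hS k, mem_Ng]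
    simp only [Set.mem_ofPred_eq, mem_Ng]
    constructor
    · rintro (h | ⟨he, h⟩ | h | h)
      · left; omega
      · right; left; exact ⟨he, by omega⟩
      · right; right; left; exact h
      · right; right; right; exact h
    · rintro (h | ⟨he, h⟩ | h | h)
      · left; omega
      · right; left; exact ⟨he, by omega⟩
      · right; right; left; exact h
      · right; right; right; exact h

/-- The conclusion of the step with no neighbour of `i` inside. -/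
def Step0 (n b : ℕ) (e : Prop) (B : Set ℤ) : Prop :=
  ∃ y : ℤ, ∃ Q B' : Set ℤ, F n b Q B' ∧
    (∀ k, k ∈ B ↔ (e ∧ k = y) ∨ k ∈ B') ∧ (e → y ∉ B') ∧ (e → y ∉ Q) ∧
    NI {k | (e ∧ k = y) ∨ k ∈ Q}

theorem Step0_neg {n b : ℕ} {e : Prop} {B : Set ℤ} (h : Step0 n b e (Ng B)) :
    Step0 n b e B := by
  obtain ⟨y, Q, B', h2, h5, h6, h9, h10⟩ := h
  refine ⟨-y, Ng Q, Ng B', F_neg h2, fun k => ?_,
    fun he => ?_, fun he => ?_, ?_⟩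
  · have := h5 (-k)
    rw [mem_Ng, neg_neg] at this
    rw [this, mem_Ng]
    constructor
    · rintro (⟨he, h⟩ | h)
      · left; exact ⟨he, by omega⟩
      · right; exact h
    · rintro (⟨he, h⟩ | h)
      · left; exact ⟨he, by omega⟩
      · right; exact h
  · rw [mem_Ng, neg_neg]; exact h6 he
  · rw [mem_Ng, neg_neg]; exact h9 he
  · have := NI_neg h10
    obtain ⟨lo, hi, h, hS⟩ := this
    refine ⟨lo, hi, h, fun k => ?_⟩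
    rw [← hS k, mem_Ng]
    simp only [Set.mem_ofPred_eq, mem_Ng]
    constructor
    · rintro (⟨he, h⟩ | h)
      · left; exact ⟨he, by omega⟩
      · right; exact h
    · rintro (⟨he, h⟩ | h)
      · left; exact ⟨he, by omega⟩
      · right; exact h

end Pool.Agent.Q52.Near
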