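import Pool.Agent.Q52.Near.Step

/-!
Gluing colourings of non-crossing graphs on the line.
-/

namespace Pool.Agent.Q52.Near

/-- The condition at an inner vertex `v` of `[i, j]`. -/
structure Vtx (E : ℕ → ℕ → Prop) (i j : ℕ) (c : ℕ → ℕ → ℤ) (v : ℕ) : Prop where
  rr : ∀ u u', v < u → u ≤ j → E v u → v < u' → u' ≤ j → E v u' → c v u = c v u' → u = u'
  ll : ∀ u u', i ≤ u → u < v → E u v → i ≤ u' → u' < v → E u' v → c u v = c u' v → u = u'
  lr : ∀ u u', i ≤ u → u < v → E u v → v < u' → u' ≤ j → E v u' → c u v ≠ c v u'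
  ni : NI {k | (∃ u, i ≤ u ∧ u < v ∧ E u v ∧ c u v = k) ∨
    (∃ u, v < u ∧ u ≤ j ∧ E v u ∧ c v u = k)}

/-- A good colouring of the edges inside `[i, j]` other than `ij`, with colour set `A` at `i` and
`B` at `j`. -/
structure Col (E : ℕ → ℕ → Prop) (i j : ℕ) (A B : Set ℤ) (c : ℕ → ℕ → ℤ) : Prop where
  imA : ∀ k, k ∈ A ↔ ∃ u, i < u ∧ u < j ∧ E i u ∧ c i u = k
  injA : ∀ u u', i < u → u < j → E i u → i < u' → u' < j → E i u' → c i u = c i u' → u = u'
  imB : ∀ k, k ∈ B ↔ ∃ u, i < u ∧ u < j ∧ E u j ∧ c u j = k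
  injB : ∀ u u', i < u → u < j → E u j → i < u' → u' < j → E u' j → c u j = c u' j → u = u'
  mid : ∀ v, i < v → v < j → Vtx E i j c v

/-- Two colourings glued at `w`. -/
def gl (i w j : ℕ) (x y : ℤ) (c1 c2 : ℕ → ℕ → ℤ) (u v : ℕ) : ℤ :=
  if u = i ∧ v = w then x else if u = w ∧ v = j then y else if v ≤ w then c1 u v else c2 u v

theorem glue {E : ℕ → ℕ → Prop}
    (hnc : ∀ a b c d, a < b → b < c → c < d → E a c → ¬ E b d)
    {i w j : ℕ} (hiw : i < w) (hwj : w < j) (hE : E i w) (hmax : ∀ u, w < u → u < j → ¬ E i u)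
    {A B A' P Q B' : Set ℤ} {x y : ℤ} {c1 c2 : ℕ → ℕ → ℤ}
    (h1 : Col E i w A' P c1) (h2 : Col E w j Q B' c2)
    (hA : ∀ k, k ∈ A ↔ k = x ∨ k ∈ A') (hxA : x ∉ A')
    (hB : ∀ k, k ∈ B ↔ (E w j ∧ k = y) ∨ k ∈ B') (hyB : E w j → y ∉ B')
    (hP : ∀ k, k ∈ P → k ≠ x ∧ k ∉ Q) (hxQ : x ∉ Q)
    (hy : E w j → y ≠ x ∧ y ∉ P ∧ y ∉ Q)
    (hT : NI {k | k = x ∨ (E w j ∧ k = y) ∨ k ∈ P ∨ k ∈ Q}) :
    Col E i j A B (gl i w j x y c1 c2) := by
  -- values of the glued colouring
  have v1 : gl i w j x y c1 c2 i w = x := by simp [gl]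
  have v2 : gl i w j x y c1 c2 w j = y := by
    unfold gl; rw [if_neg (by omega), if_pos ⟨rfl, rfl⟩]
  have v3 : ∀ u v, v ≤ w → ¬ (u = i ∧ v = w) → gl i w j x y c1 c2 u v = c1 u v := by
    intro u v hv hn
    unfold gl; rw [if_neg hn, if_neg (by omega), if_pos hv]
  have v4 : ∀ u v, w < v → ¬ (u = w ∧ v = j) → gl i w j x y c1 c2 u v = c2 u v := by
    intro u v hv hn
    unfold gl; rw [if_neg (by omega), if_neg hn, if_neg (by omega)]
  set c := gl i w j x y c1 c2 with hc
  -- edges from the left part do not pass over w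
  have e1 : ∀ v u, i < v → v < w → w < u → ¬ E v u := fun v u h1' h2' h3' =>
    hnc i v w u h1' h2' h3' hE
  refine ⟨?_, ?_, ?_, ?_, ?_⟩
  · -- imA
    intro k
    rw [hA k, h1.imA k]
    constructor
    · rintro (rfl | ⟨u, hu1, hu2, hu3, hu4⟩)
      · exact ⟨w, hiw, hwj, hE, v1⟩
      · exact ⟨u, hu1, by omega, hu3, by rw [v3 i u (by omega) (by omega)]; exact hu4⟩
    · rintro ⟨u, hu1, hu2, hu3, hu4⟩
      rcases lt_trichotomy u w with h | h | h
      · right
        refine ⟨u, hu1, h, hu3, ?_⟩
        rw [← hu4, v3 i u (by omega) (by omega)]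
      · left; subst h; rw [← hu4, v1]
      · exact absurd hu3 (hmax u h hu2)
  · -- injA
    intro u u' a1 a2 a3 b1 b2 b3 hcc
    rcases lt_trichotomy u w with h | h | h
    · rcases lt_trichotomy u' w with h' | h' | h'
      · rw [v3 i u (by omega) (by omega), v3 i u' (by omega) (by omega)] at hcc
        exact h1.injA u u' a1 h a3 b1 h' b3 hcc
      · subst h'
        rw [v3 i u (by omega) (by omega), v1] at hcc
        exact absurd ((h1.imA x).2 ⟨u, a1, h, a3, hcc⟩) hxA
      · exact absurd b3 (hmax u' h' b2)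
    · rcases lt_trichotomy u' w with h' | h' | h'
      · subst h
        rw [v3 i u' (by omega) (by omega), v1] at hcc
        exact absurd ((h1.imA x).2 ⟨u', b1, h', b3, hcc.symm⟩) hxA
      · omega
      · exact absurd b3 (hmax u' h' b2)
    · exact absurd a3 (hmax u h a2)
  · -- imB
    intro k
    rw [hB k, h2.imB k]
    constructor
    · rintro (⟨he, rfl⟩ | ⟨u, hu1, hu2, hu3, hu4⟩)
      · exact ⟨w, hiw, hwj, he, v2⟩
      · exact ⟨u, by omega, hu2, hu3, by rw [v4 u j (by omega) (by omega)]; exact hu4⟩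
    · rintro ⟨u, hu1, hu2, hu3, hu4⟩
      rcases lt_trichotomy u w with h | h | h
      · exact absurd hu3 (e1 u j hu1 h hwj)
      · left; subst h; exact ⟨hu3, by rw [← hu4, v2]⟩
      · right
        refine ⟨u, h, hu2, hu3, ?_⟩
        rw [← hu4, v4 u j (by omega) (by omega)]
  · -- injB
    intro u u' a1 a2 a3 b1 b2 b3 hcc
    rcases lt_trichotomy u w with h | h | h
    · exact absurd a3 (e1 u j a1 h hwj)
    · rcases lt_trichotomy u' w with h' | h' | h'
      · exact absurd b3 (e1 u' j b1 h' hwj)
      · omega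
      · subst h
        rw [v4 u' j (by omega) (by omega), v2] at hcc
        exact absurd ((h2.imB y).2 ⟨u', h', b2, b3, hcc.symm⟩) (hyB a3)
    · rcases lt_trichotomy u' w with h' | h' | h'
      · exact absurd b3 (e1 u' j b1 h' hwj)
      · subst h'
        rw [v4 u j (by omega) (by omega), v2] at hcc
        exact absurd ((h2.imB y).2 ⟨u, h, a2, a3, hcc⟩) (hyB b3)
      · rw [v4 u j (by omega) (by omega), v4 u' j (by omega) (by omega)] at hcc
        exact h2.injB u u' h a2 a3 h' b2 b3 hcc
  · -- inner vertices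
    intro v hv1 hv2
    rcases lt_trichotomy v w with h | h | h
    · -- left part
      have H := h1.mid v hv1 h
      have er : ∀ u, v < u → u ≤ j → E v u → u ≤ w := by
        intro u _ _ hE'
        by_contra hcon
        exact e1 v u hv1 h (by omega) hE'
      refine ⟨?_, ?_, ?_, ?_⟩
      · intro u u' a1 a2 a3 b1 b2 b3 hcc
        have a4 := er u a1 a2 a3
        have b4 := er u' b1 b2 b3
        rw [v3 v u a4 (by omega), v3 v u' b4 (by omega)] at hcc
        exact H.rr u u' a1 a4 a3 b1 b4 b3 hcc
      · intro u u' a1 a2 a3 b1 b2 b3 hcc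
        rw [v3 u v (by omega) (by omega), v3 u' v (by omega) (by omega)] at hcc
        exact H.ll u u' a1 a2 a3 b1 b2 b3 hcc
      · intro u u' a1 a2 a3 b1 b2 b3 hcc
        have b4 := er u' b1 b2 b3
        rw [v3 u v (by omega) (by omega), v3 v u' b4 (by omega)] at hcc
        exact H.lr u u' a1 a2 a3 b1 b4 b3 hcc
      · obtain ⟨lo, hi, h0, hS⟩ := H.ni
        refine ⟨lo, hi, h0, fun k => ?_⟩
        rw [← hS k]
        constructor
        · rintro (⟨u, q1, q2, q3, q4⟩ | ⟨u, q1, q2, q3, q4⟩)
          · left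
            refine ⟨u, q1, q2, q3, ?_⟩
            rw [← q4, v3 u v (by omega) (by omega)]
          · right
            have q5 := er u q1 q2 q3
            refine ⟨u, q1, q5, q3, ?_⟩
            rw [← q4, v3 v u q5 (by omega)]
        · rintro (⟨u, q1, q2, q3, q4⟩ | ⟨u, q1, q2, q3, q4⟩)
          · left
            refine ⟨u, q1, q2, q3, ?_⟩
            rw [← q4, v3 u v (by omega) (by omega)]
          · right
            refine ⟨u, q1, by omega, q3, ?_⟩
            rw [← q4, v3 v u q2 (by omega)]
    · -- the vertex w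
      subst h
      refine ⟨?_, ?_, ?_, ?_⟩
      · intro u u' a1 a2 a3 b1 b2 b3 hcc
        rcases Nat.lt_or_ge u j with h | h
        · rcases Nat.lt_or_ge u' j with h' | h'
          · rw [v4 v u (by omega) (by omega), v4 v u' (by omega) (by omega)] at hcc
            exact h2.injA u u' a1 h a3 b1 h' b3 hcc
          · obtain rfl : u' = j := by omega
            rw [v4 v u (by omega) (by omega), v2] at hcc
            exact absurd ((h2.imA y).2 ⟨u, a1, h, a3, hcc⟩) (hy b3).2.2
        · obtain rfl : u = j := by omega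
          rcases Nat.lt_or_ge u' u with h' | h'
          · rw [v4 v u' (by omega) (by omega), v2] at hcc
            exact absurd ((h2.imA y).2 ⟨u', b1, h', b3, hcc.symm⟩) (hy a3).2.2
          · omega
      · intro u u' a1 a2 a3 b1 b2 b3 hcc
        rcases Nat.lt_or_ge i u with h | h
        · rcases Nat.lt_or_ge i u' with h' | h'
          · rw [v3 u v (by omega) (by omega), v3 u' v (by omega) (by omega)] at hcc
            exact h1.injB u u' h a2 a3 h' b2 b3 hcc
          · obtain rfl : u' = i := by omega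
            rw [v3 u v (by omega) (by omega), v1] at hcc
            exact absurd rfl (hP x ((h1.imB x).2 ⟨u, h, a2, a3, hcc⟩)).1
        · obtain rfl : u = i := by omega
          rcases Nat.lt_or_ge u u' with h' | h'
          · rw [v3 u' v (by omega) (by omega), v1] at hcc
            exact absurd rfl (hP x ((h1.imB x).2 ⟨u', h', b2, b3, hcc.symm⟩)).1
          · omega
      · intro u u' a1 a2 a3 b1 b2 b3 hcc
        rcases Nat.lt_or_ge i u with h | h
        · have hmP : c u v ∈ P := by
            rw [v3 u v (by omega) (by omega)]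
            exact (h1.imB _).2 ⟨u, h, a2, a3, rfl⟩
          rcases Nat.lt_or_ge u' j with h' | h'
          · have hmQ : c v u' ∈ Q := by
              rw [v4 v u' (by omega) (by omega)]
              exact (h2.imA _).2 ⟨u', b1, h', b3, rfl⟩
            rw [← hcc] at hmQ
            exact (hP _ hmP).2 hmQ
          · obtain rfl : u' = j := by omega
            rw [hcc, v2] at hmP
            exact (hy b3).2.1 hmP
        · obtain rfl : u = i := by omega
          rw [v1] at hcc
          rcases Nat.lt_or_ge u' j with h' | h'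
          · have hmQ : c v u' ∈ Q := by
              rw [v4 v u' (by omega) (by omega)]
              exact (h2.imA _).2 ⟨u', b1, h', b3, rfl⟩
            rw [← hcc] at hmQ
            exact hxQ hmQ
          · obtain rfl : u' = j := by omega
            rw [v2] at hcc
            exact (hy b3).1 hcc.symm
      · obtain ⟨lo, hi, h0, hS⟩ := hT
        refine ⟨lo, hi, h0, fun k => ?_⟩
        rw [← hS k]
        constructor
        · rintro (⟨u, q1, q2, q3, q4⟩ | ⟨u, q1, q2, q3, q4⟩)
          · rcases Nat.lt_or_ge i u with h | h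
            · right; right; left
              refine (h1.imB k).2 ⟨u, h, q2, q3, ?_⟩
              rw [← q4, v3 u v (by omega) (by omega)]
            · obtain rfl : u = i := by omega
              left; rw [← q4, v1]
          · rcases Nat.lt_or_ge u j with h' | h'
            · right; right; right
              refine (h2.imA k).2 ⟨u, q1, h', q3, ?_⟩
              rw [← q4, v4 v u (by omega) (by omega)]
            · obtain rfl : u = j := by omega
              right; left
              exact ⟨q3, by rw [← q4, v2]⟩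
        · rintro (rfl | ⟨he, rfl⟩ | hk | hk)
          · left; exact ⟨i, le_rfl, hiw, hE, v1⟩
          · right; exact ⟨j, hwj, le_rfl, he, v2⟩
          · obtain ⟨u, q1, q2, q3, q4⟩ := (h1.imB k).1 hk
            left
            refine ⟨u, by omega, q2, q3, ?_⟩
            rw [← q4, v3 u v (by omega) (by omega)]
          · obtain ⟨u, q1, q2, q3, q4⟩ := (h2.imA k).1 hk
            right
            refine ⟨u, q1, by omega, q3, ?_⟩
            rw [← q4, v4 v u (by omega) (by omega)]
    · -- right part
      have H := h2.mid v h hv2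
      have el : ∀ u, i ≤ u → u < v → E u v → w ≤ u := by
        intro u hu _ hE'
        by_contra hcon
        rcases Nat.lt_or_ge i u with h' | h'
        · exact e1 u v h' (by omega) h hE'
        · obtain rfl : u = i := by omega
          exact hmax v h hv2 hE'
      refine ⟨?_, ?_, ?_, ?_⟩
      · intro u u' a1 a2 a3 b1 b2 b3 hcc
        rw [v4 v u (by omega) (by omega), v4 v u' (by omega) (by omega)] at hcc
        exact H.rr u u' a1 a2 a3 b1 b2 b3 hcc
      · intro u u' a1 a2 a3 b1 b2 b3 hcc
        rw [v4 u v (by omega) (by omega), v4 u' v (by omega) (by omega)] at hcc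
        exact H.ll u u' (el u a1 a2 a3) a2 a3 (el u' b1 b2 b3) b2 b3 hcc
      · intro u u' a1 a2 a3 b1 b2 b3 hcc
        rw [v4 u v (by omega) (by omega), v4 v u' (by omega) (by omega)] at hcc
        exact H.lr u u' (el u a1 a2 a3) a2 a3 b1 b2 b3 hcc
      · obtain ⟨lo, hi, h0, hS⟩ := H.ni
        refine ⟨lo, hi, h0, fun k => ?_⟩
        rw [← hS k]
        constructor
        · rintro (⟨u, q1, q2, q3, q4⟩ | ⟨u, q1, q2, q3, q4⟩)
          · left
            refine ⟨u, el u q1 q2 q3, q2, q3, ?_⟩
            rw [← q4, v4 u v (by omega) (by omega)]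
          · right
            refine ⟨u, q1, q2, q3, ?_⟩
            rw [← q4, v4 v u (by omega) (by omega)]
        · rintro (⟨u, q1, q2, q3, q4⟩ | ⟨u, q1, q2, q3, q4⟩)
          · left
            refine ⟨u, by omega, q2, q3, ?_⟩
            rw [← q4, v4 u v (by omega) (by omega)]
          · right
            refine ⟨u, q1, q2, q3, ?_⟩
            rw [← q4, v4 v u (by omega) (by omega)]

theorem glue0 {E : ℕ → ℕ → Prop}
    {i w j : ℕ} (hiw : w = i + 1) (hwj : w < j) (hmax : ∀ u, i < u → u < j → ¬ E i u)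
    {A B Q B' : Set ℤ} {y : ℤ} {c2 : ℕ → ℕ → ℤ}
    (h2 : Col E w j Q B' c2)
    (hA : ∀ k, k ∉ A)
    (hB : ∀ k, k ∈ B ↔ (E w j ∧ k = y) ∨ k ∈ B') (hyB : E w j → y ∉ B')
    (hy : E w j → y ∉ Q)
    (hT : NI {k | (E w j ∧ k = y) ∨ k ∈ Q}) :
    Col E i j A B (gl i w j 0 y c2 c2) := by
  have v2 : gl i w j 0 y c2 c2 w j = y := by
    unfold gl; rw [if_neg (by omega), if_pos ⟨rfl, rfl⟩]
  have v4 : ∀ u v, ¬ (u = i ∧ v = w) → ¬ (u = w ∧ v = j) → gl i w j 0 y c2 c2 u v = c2 u v := by
    intro u v hv hn
    unfold gl; rw [if_neg hv, if_neg hn]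
    split_ifs <;> rfl
  set c := gl i w j 0 y c2 c2 with hc
  refine ⟨?_, ?_, ?_, ?_, ?_⟩
  · intro k
    refine iff_of_false (hA k) ?_
    rintro ⟨u, h1, h2', h3, -⟩
    exact hmax u h1 h2' h3
  · intro u u' a1 a2 a3
    exact absurd a3 (hmax u a1 a2)
  · intro k
    rw [hB k, h2.imB k]
    constructor
    · rintro (⟨he, rfl⟩ | ⟨u, hu1, hu2, hu3, hu4⟩)
      · exact ⟨w, by omega, hwj, he, v2⟩
      · exact ⟨u, by omega, hu2, hu3, by rw [v4 u j (by omega) (by omega)]; exact hu4⟩
    · rintro ⟨u, hu1, hu2, hu3, hu4⟩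
      rcases lt_trichotomy u w with h | h | h
      · omega
      · left; subst h; exact ⟨hu3, by rw [← hu4, v2]⟩
      · right
        refine ⟨u, h, hu2, hu3, ?_⟩
        rw [← hu4, v4 u j (by omega) (by omega)]
  · intro u u' a1 a2 a3 b1 b2 b3 hcc
    rcases lt_trichotomy u w with h | h | h
    · omega
    · rcases lt_trichotomy u' w with h' | h' | h'
      · omega
      · omega
      · subst h
        rw [v4 u' j (by omega) (by omega), v2] at hcc
        exact absurd ((h2.imB y).2 ⟨u', h', b2, b3, hcc.symm⟩) (hyB a3)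
    · rcases lt_trichotomy u' w with h' | h' | h'
      · omega
      · subst h'
        rw [v4 u j (by omega) (by omega), v2] at hcc
        exact absurd ((h2.imB y).2 ⟨u, h, a2, a3, hcc⟩) (hyB b3)
      · rw [v4 u j (by omega) (by omega), v4 u' j (by omega) (by omega)] at hcc
        exact h2.injB u u' h a2 a3 h' b2 b3 hcc
  · intro v hv1 hv2
    have el : ∀ u, i ≤ u → u < v → E u v → w ≤ u := by
      intro u hu _ hE'
      by_contra hcon
      obtain rfl : u = i := by omega
      exact hmax v hv1 hv2 hE'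
    rcases lt_or_eq_of_le (show w ≤ v by omega) with h | h
    · have H := h2.mid v h hv2
      refine ⟨?_, ?_, ?_, ?_⟩
      · intro u u' a1 a2 a3 b1 b2 b3 hcc
        rw [v4 v u (by omega) (by omega), v4 v u' (by omega) (by omega)] at hcc
        exact H.rr u u' a1 a2 a3 b1 b2 b3 hcc
      · intro u u' a1 a2 a3 b1 b2 b3 hcc
        rw [v4 u v (by omega) (by omega), v4 u' v (by omega) (by omega)] at hcc
        exact H.ll u u' (el u a1 a2 a3) a2 a3 (el u' b1 b2 b3) b2 b3 hcc
      · intro u u' a1 a2 a3 b1 b2 b3 hcc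
        rw [v4 u v (by omega) (by omega), v4 v u' (by omega) (by omega)] at hcc
        exact H.lr u u' (el u a1 a2 a3) a2 a3 b1 b2 b3 hcc
      · obtain ⟨lo, hi, h0, hS⟩ := H.ni
        refine ⟨lo, hi, h0, fun k => ?_⟩
        rw [← hS k]
        constructor
        · rintro (⟨u, q1, q2, q3, q4⟩ | ⟨u, q1, q2, q3, q4⟩)
          · left
            refine ⟨u, el u q1 q2 q3, q2, q3, ?_⟩
            rw [← q4, v4 u v (by omega) (by omega)]
          · right
            refine ⟨u, q1, q2, q3, ?_⟩
            rw [← q4, v4 v u (by omega) (by omega)]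
        · rintro (⟨u, q1, q2, q3, q4⟩ | ⟨u, q1, q2, q3, q4⟩)
          · left
            refine ⟨u, by omega, q2, q3, ?_⟩
            rw [← q4, v4 u v (by omega) (by omega)]
          · right
            refine ⟨u, q1, q2, q3, ?_⟩
            rw [← q4, v4 v u (by omega) (by omega)]
    · subst h
      have nol : ∀ u, i ≤ u → u < w → ¬ E u w := by
        intro u q1 q2 q3
        have := el u q1 q2 q3
        omega
      refine ⟨?_, ?_, ?_, ?_⟩
      · intro u u' a1 a2 a3 b1 b2 b3 hcc
        rcases Nat.lt_or_ge u j with h | h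
        · rcases Nat.lt_or_ge u' j with h' | h'
          · rw [v4 w u (by omega) (by omega), v4 w u' (by omega) (by omega)] at hcc
            exact h2.injA u u' a1 h a3 b1 h' b3 hcc
          · obtain rfl : u' = j := by omega
            rw [v4 w u (by omega) (by omega), v2] at hcc
            exact absurd ((h2.imA y).2 ⟨u, a1, h, a3, hcc⟩) (hy b3)
        · obtain rfl : u = j := by omega
          rcases Nat.lt_or_ge u' u with h' | h'
          · rw [v4 w u' (by omega) (by omega), v2] at hcc
            exact absurd ((h2.imA y).2 ⟨u', b1, h', b3, hcc.symm⟩) (hy a3)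
          · omega
      · intro u u' a1 a2 a3
        exact absurd a3 (nol u a1 a2)
      · intro u u' a1 a2 a3
        exact absurd a3 (nol u a1 a2)
      · obtain ⟨lo, hi, h0, hS⟩ := hT
        refine ⟨lo, hi, h0, fun k => ?_⟩
        rw [← hS k]
        constructor
        · rintro (⟨u, q1, q2, q3, q4⟩ | ⟨u, q1, q2, q3, q4⟩)
          · exact absurd q3 (nol u q1 q2)
          · rcases Nat.lt_or_ge u j with h' | h'
            · right
              refine (h2.imA k).2 ⟨u, q1, h', q3, ?_⟩
              rw [← q4, v4 w u (by omega) (by omega)]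
            · obtain rfl : u = j := by omega
              left
              exact ⟨q3, by rw [← q4, v2]⟩
        · rintro (⟨he, rfl⟩ | hk)
          · right; exact ⟨j, hwj, le_rfl, he, v2⟩
          · obtain ⟨u, q1, q2, q3, q4⟩ := (h2.imA k).1 hk
            right
            refine ⟨u, q1, by omega, q3, ?_⟩
            rw [← q4, v4 w u (by omega) (by omega)]

end Pool.Agent.Q52.Near
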