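import Pool.Agent.Q52.Near.Glue

/-!
Near-interval colourings of non-crossing graphs on the line.
-/

namespace Pool.Agent.Q52.Near

open Classical in
/-- The number of right neighbours of `i` inside `(i, j)`. -/
noncomputable def ra (E : ℕ → ℕ → Prop) (i j : ℕ) : ℕ :=
  ((Finset.Ioo i j).filter (fun u => E i u)).card

open Classical in
/-- The number of left neighbours of `j` inside `(i, j)`. -/
noncomputable def la (E : ℕ → ℕ → Prop) (i j : ℕ) : ℕ :=
  ((Finset.Ioo i j).filter (fun u => E u j)).card

theorem ra_zero {E : ℕ → ℕ → Prop} {i j : ℕ} (h : ∀ u, ¬ E i u) : ra E i j = 0 := by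
  classical
  unfold ra
  rw [Finset.card_eq_zero, Finset.filter_eq_empty_iff]
  intro u _ hc
  exact h u hc

theorem la_zero {E : ℕ → ℕ → Prop} {i j : ℕ} (h : ∀ u, ¬ E u j) : la E i j = 0 := by
  classical
  unfold la
  rw [Finset.card_eq_zero, Finset.filter_eq_empty_iff]
  intro u _ hc
  exact h u hc

theorem main {E : ℕ → ℕ → Prop}
    (hnc : ∀ a b c d, a < b → b < c → c < d → E a c → ¬ E b d) :
    ∀ k i j, j = i + 1 + k → ∀ A B : Set ℤ, F (ra E i j) (la E i j) A B →
      ∃ c, Col E i j A B c := by
  classical
  intro k
  induction k using Nat.strong_induction_on with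
  | _ k ih =>
    intro i j hj A B hF
    rcases Nat.eq_zero_or_pos k with rfl | hk
    · -- no inner vertex
      have h1 : ra E i j = 0 := by
        unfold ra
        rw [Finset.card_eq_zero, Finset.filter_eq_empty_iff]
        intro u hu
        rw [Finset.mem_Ioo] at hu
        omega
      have h2 : la E i j = 0 := by
        unfold la
        rw [Finset.card_eq_zero, Finset.filter_eq_empty_iff]
        intro u hu
        rw [Finset.mem_Ioo] at hu
        omega
      have hA : ∀ k, k ∉ A := by
        rw [h1] at hF; exact F_empty_left hF
      have hB : ∀ k, k ∉ B := by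
        rw [h2] at hF; exact F_empty_right hF
      refine ⟨fun _ _ => 0, ?_, ?_, ?_, ?_, ?_⟩
      · intro k
        exact iff_of_false (hA k) (by rintro ⟨u, q1, q2, -⟩; omega)
      · intro u u' q1 q2; omega
      · intro k
        exact iff_of_false (hB k) (by rintro ⟨u, q1, q2, -⟩; omega)
      · intro u u' q1 q2; omega
      · intro v q1 q2; omega
    · by_cases hex : ∃ u, i < u ∧ u < j ∧ E i u
      · -- split at the last neighbour of i
        obtain ⟨w, ⟨hw, hmax0⟩⟩ : ∃ w, w ∈ (Finset.Ioo i j).filter (fun u => E i u) ∧
            ∀ u ∈ (Finset.Ioo i j).filter (fun u => E i u), u ≤ w := by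
          have hne : ((Finset.Ioo i j).filter (fun u => E i u)).Nonempty := by
            obtain ⟨u, q1, q2, q3⟩ := hex
            exact ⟨u, by simp [q1, q2, q3]⟩
          exact ⟨_, Finset.max'_mem _ hne, fun u hu => Finset.le_max' _ u hu⟩
        simp only [Finset.mem_filter, Finset.mem_Ioo] at hw
        obtain ⟨⟨hiw, hwj⟩, hE⟩ := hw
        have hmax : ∀ u, w < u → u < j → ¬ E i u := by
          intro u q1 q2 q3
          have := hmax0 u (by simp only [Finset.mem_filter, Finset.mem_Ioo]; exact ⟨⟨by omega, q2⟩, q3⟩)
          omega
        have e1 : ∀ v u, i < v → v < w → w < u → ¬ E v u := fun v u h1' h2' h3' =>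
          hnc i v w u h1' h2' h3' hE
        have hra : ra E i j = ra E i w + 1 := by
          unfold ra
          have : (Finset.Ioo i j).filter (fun u => E i u) =
              insert w ((Finset.Ioo i w).filter (fun u => E i u)) := by
            ext u
            simp only [Finset.mem_filter, Finset.mem_Ioo, Finset.mem_insert]
            constructor
            · rintro ⟨⟨q1, q2⟩, q3⟩
              rcases lt_trichotomy u w with h | h | h
              · right; exact ⟨⟨q1, h⟩, q3⟩
              · left; exact h
              · exact absurd q3 (hmax u h q2)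
            · rintro (rfl | ⟨⟨q1, q2⟩, q3⟩)
              · exact ⟨⟨hiw, hwj⟩, hE⟩
              · exact ⟨⟨q1, by omega⟩, q3⟩
          rw [this, Finset.card_insert_of_notMem]
          simp
        have hla1 : E w j → la E i j = la E w j + 1 := by
          intro he
          unfold la
          have : (Finset.Ioo i j).filter (fun u => E u j) =
              insert w ((Finset.Ioo w j).filter (fun u => E u j)) := by
            ext u
            simp only [Finset.mem_filter, Finset.mem_Ioo, Finset.mem_insert]
            constructor
            · rintro ⟨⟨q1, q2⟩, q3⟩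
              rcases lt_trichotomy u w with h | h | h
              · exact absurd q3 (e1 u j q1 h hwj)
              · left; exact h
              · right; exact ⟨⟨h, q2⟩, q3⟩
            · rintro (rfl | ⟨⟨q1, q2⟩, q3⟩)
              · exact ⟨⟨hiw, hwj⟩, he⟩
              · exact ⟨⟨by omega, q2⟩, q3⟩
          rw [this, Finset.card_insert_of_notMem]
          simp
        have hla2 : ¬ E w j → la E i j = la E w j := by
          intro he
          unfold la
          congr 1
          ext u
          simp only [Finset.mem_filter, Finset.mem_Ioo]
          constructor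
          · rintro ⟨⟨q1, q2⟩, q3⟩
            rcases lt_trichotomy u w with h | h | h
            · exact absurd q3 (e1 u j q1 h hwj)
            · subst h; exact absurd q3 he
            · exact ⟨⟨h, q2⟩, q3⟩
          · rintro ⟨⟨q1, q2⟩, q3⟩
            exact ⟨⟨by omega, q2⟩, q3⟩
        rw [hra] at hF
        obtain ⟨x, y, A', P, Q, B', f1, f2, hA, hxA, hB, hyB, hP, hxQ, hy, hT⟩ :=
          step_F (m := la E i w) (n := ra E w j) (b := la E w j) (e := E w j) hF hla1 hla2
        obtain ⟨c1, h1⟩ := ih (w - i - 1) (by omega) i w (by omega) A' P f1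
        obtain ⟨c2, h2⟩ := ih (j - w - 1) (by omega) w j (by omega) Q B' f2
        exact ⟨_, glue hnc hiw hwj hE hmax h1 h2 hA hxA hB hyB hP hxQ hy hT⟩
      · -- i has no neighbour inside
        have hmax : ∀ u, i < u → u < j → ¬ E i u := fun u q1 q2 q3 => hex ⟨u, q1, q2, q3⟩
        have hwj : i + 1 < j := by omega
        have hra : ra E i j = 0 := by
          unfold ra
          rw [Finset.card_eq_zero, Finset.filter_eq_empty_iff]
          intro u hu
          rw [Finset.mem_Ioo] at hu
          exact hmax u hu.1 hu.2
        have hla1 : E (i + 1) j → la E i j = la E (i + 1) j + 1 := by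
          intro he
          unfold la
          have : (Finset.Ioo i j).filter (fun u => E u j) =
              insert (i + 1) ((Finset.Ioo (i + 1) j).filter (fun u => E u j)) := by
            ext u
            simp only [Finset.mem_filter, Finset.mem_Ioo, Finset.mem_insert]
            constructor
            · rintro ⟨⟨q1, q2⟩, q3⟩
              rcases Nat.lt_or_ge (i + 1) u with h | h
              · right; exact ⟨⟨h, q2⟩, q3⟩
              · left; omega
            · rintro (rfl | ⟨⟨q1, q2⟩, q3⟩)
              · exact ⟨⟨by omega, hwj⟩, he⟩
              · exact ⟨⟨by omega, q2⟩, q3⟩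
          rw [this, Finset.card_insert_of_notMem]
          simp
        have hla2 : ¬ E (i + 1) j → la E i j = la E (i + 1) j := by
          intro he
          unfold la
          congr 1
          ext u
          simp only [Finset.mem_filter, Finset.mem_Ioo]
          constructor
          · rintro ⟨⟨q1, q2⟩, q3⟩
            rcases Nat.lt_or_ge (i + 1) u with h | h
            · exact ⟨⟨h, q2⟩, q3⟩
            · obtain rfl : u = i + 1 := by omega
              exact absurd q3 he
          · rintro ⟨⟨q1, q2⟩, q3⟩
            exact ⟨⟨by omega, q2⟩, q3⟩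
        rw [hra] at hF
        obtain ⟨y, Q, B', f2, hB, hyB, hy, hT⟩ :=
          step0_F (n := ra E (i + 1) j) (b := la E (i + 1) j) (e := E (i + 1) j) hF hla1 hla2
        obtain ⟨c2, h2⟩ := ih (j - (i + 1) - 1) (by omega) (i + 1) j (by omega) Q B' f2
        exact ⟨_, glue0 rfl hwj hmax h2 (F_empty_left hF) hB hyB hy hT⟩

end Pool.Agent.Q52.Near
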