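import Pool.Agent.Q52.Near.Fam

/-!
The splitting step for the basic pairs.
-/

namespace Pool.Agent.Q52.Near

/-- An interval. -/
def V (lo hi : ℤ) : Set ℤ := {k | lo ≤ k ∧ k ≤ hi}

/-- An interval without its second element. -/
def J (r hi : ℤ) : Set ℤ := {k | k = r ∨ (r + 2 ≤ k ∧ k ≤ hi)}

theorem mem_V (lo hi k : ℤ) : k ∈ V lo hi ↔ lo ≤ k ∧ k ≤ hi := Iff.rfl

theorem mem_J (r hi k : ℤ) : k ∈ J r hi ↔ k = r ∨ (r + 2 ≤ k ∧ k ≤ hi) := Iff.rfl

theorem leafE {a m n b : ℕ} {A B : Set ℤ} (x y : ℤ) (A' P Q B' : Set ℤ) (h1 : F a m A' P)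
    (h2 : F n b Q B') (lo hi h : ℤ) (hA : ∀ k, k ∈ A ↔ k = x ∨ k ∈ A') (hx : x ∉ A')
    (hB : ∀ k, k ∈ B ↔ k = y ∨ k ∈ B') (hy : y ∉ B')
    (hP : ∀ k, k ∈ P → k ≠ x ∧ k ≠ y ∧ k ∉ Q)
    (hxQ : x ∉ Q) (hyQ : y ∉ Q) (hT : ∀ k, (k = x ∨ k = y ∨ k ∈ P ∨ k ∈ Q) ↔
      lo ≤ k ∧ k ≤ hi ∧ k ≠ h) (hxy : y ≠ x) :
    Step a m n b True A B := by
  refine ⟨x, y, A', P, Q, B', h1, h2, hA, hx, fun k => ?_, fun _ => hy,
    fun k hk => ⟨(hP k hk).1, (hP k hk).2.2⟩, hxQ, fun _ => ⟨hxy, fun hc => (hP y hc).2.1 rfl, hyQ⟩,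
    lo, hi, h, fun k => ?_⟩
  · rw [hB k]; simp
  · rw [← hT k]; simp

theorem leafN {a m n b : ℕ} {A B : Set ℤ} (x : ℤ) (A' P Q : Set ℤ) (h1 : F a m A' P)
    (h2 : F n b Q B) (lo hi h : ℤ) (hA : ∀ k, k ∈ A ↔ k = x ∨ k ∈ A') (hx : x ∉ A')
    (hP : ∀ k, k ∈ P → k ≠ x ∧ k ∉ Q)
    (hxQ : x ∉ Q) (hT : ∀ k, (k = x ∨ k ∈ P ∨ k ∈ Q) ↔
      lo ≤ k ∧ k ≤ hi ∧ k ≠ h) :
    Step a m n b False A B := by
  refine ⟨x, 0, A', P, Q, B, h1, h2, hA, hx, fun k => ?_, fun hc => hc.elim,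
    fun k hk => hP k hk, hxQ, fun hc => hc.elim,
    lo, hi, h, fun k => ?_⟩
  · simp
  · rw [← hT k]; simp

set_option linter.unusedSimpArgs false

theorem stepE {a m n b : ℕ} {A B : Set ℤ} (h : L (a + 1) (b + 1) A B) :
    Step a m n b True A B := by
  rcases h with ⟨s, hA, hB⟩ | ⟨s, hA, hB⟩ | ⟨s, h0, hA, hB⟩ | ⟨s, hA, hB⟩ | ⟨s, hA, hB⟩ | ⟨r, h0, hA, hB⟩ | ⟨r, h0, hA, hB⟩ | ⟨r, h0, hA, hB⟩ | ⟨r, h0, hA, hB⟩ | ⟨r, h0, hA, hB⟩ | ⟨r, h0, hA, hB⟩
  · by_cases hc4 : n = 1 ∧ b = 1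
    · exact leafE (s) (s+1) (V (s+1) (s+a)) (V (s-m) (s-1)) (V (s+3) (s+3)) (V (s+2) (s+2)) (Or.inl (L.c3 (s+1) (by intro k; simp only [mem_V, mem_J, mem_Ng, *] <;> omega) (by intro k; simp only [mem_V, mem_J, mem_Ng, *] <;> omega))) (Or.inl (L.c1b (s+2) (by intro k; simp only [mem_V, mem_J, mem_Ng, *] <;> omega) (by intro k; simp only [mem_V, mem_J, mem_Ng, *] <;> omega))) (s-m) (s+3) (s+2) (by simp only [mem_V, mem_J, mem_Ng, *] <;> (intros; omega)) (by simp only [mem_V, mem_J, mem_Ng, *] <;> (intros; omega)) (by simp only [mem_V, mem_J, mem_Ng, *] <;> (intros; omega)) (by simp only [mem_V, mem_J, mem_Ng, *] <;> (intros; omega)) (by simp only [mem_V, mem_J, mem_Ng, *] <;> (intros; omega)) (by simp only [mem_V, mem_J, mem_Ng, *] <;> (intros; omega)) (by simp only [mem_V, mem_J, mem_Ng, *] <;> (intros; omega)) (by simp only [mem_V, mem_J, mem_Ng, *] <;> (intros; omega)) (by omega)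
    · exact leafE (s) (s+1) (V (s+1) (s+a)) (V (s-m) (s-1)) (V (s+2) (s+1+n)) (V (s+2) (s+1+b)) (Or.inl (L.c3 (s+1) (by intro k; simp only [mem_V, mem_J, mem_Ng, *] <;> omega) (by intro k; simp only [mem_V, mem_J, mem_Ng, *] <;> omega))) (Or.inl (L.c2 (s+2) (by omega) (by intro k; simp only [mem_V, mem_J, mem_Ng, *] <;> omega) (by intro k; simp only [mem_V, mem_J, mem_Ng, *] <;> omega))) (s-m) (s+1+n) ((s-m) - 1) (by simp only [mem_V, mem_J, mem_Ng, *] <;> (intros; omega)) (by simp only [mem_V, mem_J, mem_Ng, *] <;> (intros; omega)) (by simp only [mem_V, mem_J, mem_Ng, *] <;> (intros; omega)) (by simp only [mem_V, mem_J, mem_Ng, *] <;> (intros; omega)) (by simp only [mem_V, mem_J, mem_Ng, *] <;> (intros; omega)) (by simp only [mem_V, mem_J, mem_Ng, *] <;> (intros; omega)) (by simp only [mem_V, mem_J, mem_Ng, *] <;> (intros; omega)) (by simp only [mem_V, mem_J, mem_Ng, *] <;> (intros; omega)) (by omega)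
  · by_cases hc4 : m = 1 ∧ a = 1
    · exact leafE (s+1) (s) (V (s+2) (s+2)) (V (s+3) (s+3)) (V (s-n) (s-1)) (V (s+1) (s+b)) (Or.inl (L.c1a (s+2) (by intro k; simp only [mem_V, mem_J, mem_Ng, *] <;> omega) (by intro k; simp only [mem_V, mem_J, mem_Ng, *] <;> omega))) (Or.inr (L.c3 (1-s) (by intro k; simp only [mem_V, mem_J, mem_Ng, *] <;> omega) (by intro k; simp only [mem_V, mem_J, mem_Ng, *] <;> omega))) (s-n) (s+3) (s+2) (by simp only [mem_V, mem_J, mem_Ng, *] <;> (intros; omega)) (by simp only [mem_V, mem_J, mem_Ng, *] <;> (intros; omega)) (by simp only [mem_V, mem_J, mem_Ng, *] <;> (intros; omega)) (by simp only [mem_V, mem_J, mem_Ng, *] <;> (intros; omega)) (by simp only [mem_V, mem_J, mem_Ng, *] <;> (intros; omega)) (by simp only [mem_V, mem_J, mem_Ng, *] <;> (intros; omega)) (by simp only [mem_V, mem_J, mem_Ng, *] <;> (intros; omega)) (by simp only [mem_V, mem_J, mem_Ng, *] <;> (intros; omega)) (by omega)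
    · exact leafE (s+1) (s) (V (s+2) (s+1+a)) (V (s+2) (s+1+m)) (V (s-n) (s-1)) (V (s+1) (s+b)) (Or.inl (L.c2 (s+2) (by omega) (by intro k; simp only [mem_V, mem_J, mem_Ng, *] <;> omega) (by intro k; simp only [mem_V, mem_J, mem_Ng, *] <;> omega))) (Or.inr (L.c3 (1-s) (by intro k; simp only [mem_V, mem_J, mem_Ng, *] <;> omega) (by intro k; simp only [mem_V, mem_J, mem_Ng, *] <;> omega))) (s-n) (s+1+m) ((s-n) - 1) (by simp only [mem_V, mem_J, mem_Ng, *] <;> (intros; omega)) (by simp only [mem_V, mem_J, mem_Ng, *] <;> (intros; omega)) (by simp only [mem_V, mem_J, mem_Ng, *] <;> (intros; omega)) (by simp only [mem_V, mem_J, mem_Ng, *] <;> (intros; omega)) (by simp only [mem_V, mem_J, mem_Ng, *] <;> (intros; omega)) (by simp only [mem_V, mem_J, mem_Ng, *] <;> (intros; omega)) (by simp only [mem_V, mem_J, mem_Ng, *] <;> (intros; omega)) (by simp only [mem_V, mem_J, mem_Ng, *] <;> (intros; omega)) (by omega)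
  · by_cases hc4 : 2 ≤ a
    · exact leafE (s+1) (s) (J (s) (s+a)) (V (s-m) (s-1)) (V (s+2) (s+1+n)) (V (s+1) (s+b)) (Or.inl (L.c8s (s) (by omega) (by intro k; simp only [mem_V, mem_J, mem_Ng, *] <;> omega) (by intro k; simp only [mem_V, mem_J, mem_Ng, *] <;> omega))) (Or.inl (L.c1b (s+1) (by intro k; simp only [mem_V, mem_J, mem_Ng, *] <;> omega) (by intro k; simp only [mem_V, mem_J, mem_Ng, *] <;> omega))) (s-m) (s+1+n) ((s-m) - 1) (by simp only [mem_V, mem_J, mem_Ng, *] <;> (intros; omega)) (by simp only [mem_V, mem_J, mem_Ng, *] <;> (intros; omega)) (by simp only [mem_V, mem_J, mem_Ng, *] <;> (intros; omega)) (by simp only [mem_V, mem_J, mem_Ng, *] <;> (intros; omega)) (by simp only [mem_V, mem_J, mem_Ng, *] <;> (intros; omega)) (by simp only [mem_V, mem_J, mem_Ng, *] <;> (intros; omega)) (by simp only [mem_V, mem_J, mem_Ng, *] <;> (intros; omega)) (by simp only [mem_V, mem_J, mem_Ng, *] <;> (intros; omega)) (by omega)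
    · by_cases hc6 : a = 1
      · exact leafE (s+1) (s) (V (s) (s)) (V (s-m) (s-1)) (V (s+2) (s+1+n)) (V (s+1) (s+b)) (Or.inl (L.c4 (s) (by intro k; simp only [mem_V, mem_J, mem_Ng, *] <;> omega) (by intro k; simp only [mem_V, mem_J, mem_Ng, *] <;> omega))) (Or.inl (L.c1b (s+1) (by intro k; simp only [mem_V, mem_J, mem_Ng, *] <;> omega) (by intro k; simp only [mem_V, mem_J, mem_Ng, *] <;> omega))) (s-m) (s+1+n) ((s-m) - 1) (by simp only [mem_V, mem_J, mem_Ng, *] <;> (intros; omega)) (by simp only [mem_V, mem_J, mem_Ng, *] <;> (intros; omega)) (by simp only [mem_V, mem_J, mem_Ng, *] <;> (intros; omega)) (by simp only [mem_V, mem_J, mem_Ng, *] <;> (intros; omega)) (by simp only [mem_V, mem_J, mem_Ng, *] <;> (intros; omega)) (by simp only [mem_V, mem_J, mem_Ng, *] <;> (intros; omega)) (by simp only [mem_V, mem_J, mem_Ng, *] <;> (intros; omega)) (by simp only [mem_V, mem_J, mem_Ng, *] <;> (intros; omega)) (by omega)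
      · by_cases hc8 : b = 1
        · exact leafE (s) (s+1) (V (s+1) (s)) (V (s+2) (s+1+m)) (V (s-n) (s-1)) (V (s) (s)) (Or.inl (L.c1a (s+1) (by intro k; simp only [mem_V, mem_J, mem_Ng, *] <;> omega) (by intro k; simp only [mem_V, mem_J, mem_Ng, *] <;> omega))) (Or.inr (L.c4 (1-s) (by intro k; simp only [mem_V, mem_J, mem_Ng, *] <;> omega) (by intro k; simp only [mem_V, mem_J, mem_Ng, *] <;> omega))) (s-n) (s+1+m) ((s-n) - 1) (by simp only [mem_V, mem_J, mem_Ng, *] <;> (intros; omega)) (by simp only [mem_V, mem_J, mem_Ng, *] <;> (intros; omega)) (by simp only [mem_V, mem_J, mem_Ng, *] <;> (intros; omega)) (by simp only [mem_V, mem_J, mem_Ng, *] <;> (intros; omega)) (by simp only [mem_V, mem_J, mem_Ng, *] <;> (intros; omega)) (by simp only [mem_V, mem_J, mem_Ng, *] <;> (intros; omega)) (by simp only [mem_V, mem_J, mem_Ng, *] <;> (intros; omega)) (by simp only [mem_V, mem_J, mem_Ng, *] <;> (intros; omega)) (by omega)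
        · exact leafE (s) (s+1) (V (s+1) (s)) (V (s+2) (s+1+m)) (V (s-n) (s-1)) (J (s) (s+b)) (Or.inl (L.c1a (s+1) (by intro k; simp only [mem_V, mem_J, mem_Ng, *] <;> omega) (by intro k; simp only [mem_V, mem_J, mem_Ng, *] <;> omega))) (Or.inl (L.c8 (s) (by omega) (by intro k; simp only [mem_V, mem_J, mem_Ng, *] <;> omega) (by intro k; simp only [mem_V, mem_J, mem_Ng, *] <;> omega))) (s-n) (s+1+m) ((s-n) - 1) (by simp only [mem_V, mem_J, mem_Ng, *] <;> (intros; omega)) (by simp only [mem_V, mem_J, mem_Ng, *] <;> (intros; omega)) (by simp only [mem_V, mem_J, mem_Ng, *] <;> (intros; omega)) (by simp only [mem_V, mem_J, mem_Ng, *] <;> (intros; omega)) (by simp only [mem_V, mem_J, mem_Ng, *] <;> (intros; omega)) (by simp only [mem_V, mem_J, mem_Ng, *] <;> (intros; omega)) (by simp only [mem_V, mem_J, mem_Ng, *] <;> (intros; omega)) (by simp only [mem_V, mem_J, mem_Ng, *] <;> (intros; omega)) (by omega)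
  · by_cases hc4 : a = 1 ∧ m = 1
    · by_cases hc6 : b = 1 ∧ n = 1
      · exact leafE (s) (s-2) (V (s+1) (s+a)) (V (s-1) (s-1)) (V (s-4) (s-4)) (V (s-2-b) (s-3)) (Or.inl (L.c3 (s+1) (by intro k; simp only [mem_V, mem_J, mem_Ng, *] <;> omega) (by intro k; simp only [mem_V, mem_J, mem_Ng, *] <;> omega))) (Or.inl (L.c1a (s-4) (by intro k; simp only [mem_V, mem_J, mem_Ng, *] <;> omega) (by intro k; simp only [mem_V, mem_J, mem_Ng, *] <;> omega))) (s-4) (s) (s-3) (by simp only [mem_V, mem_J, mem_Ng, *] <;> (intros; omega)) (by simp only [mem_V, mem_J, mem_Ng, *] <;> (intros; omega)) (by simp only [mem_V, mem_J, mem_Ng, *] <;> (intros; omega)) (by simp only [mem_V, mem_J, mem_Ng, *] <;> (intros; omega)) (by simp only [mem_V, mem_J, mem_Ng, *] <;> (intros; omega)) (by simp only [mem_V, mem_J, mem_Ng, *] <;> (intros; omega)) (by simp only [mem_V, mem_J, mem_Ng, *] <;> (intros; omega)) (by simp only [mem_V, mem_J, mem_Ng, *] <;> (intros; omega))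 (by omega)
      · exact leafE (s) (s-2) (V (s+1) (s+a)) (V (s-1) (s-1)) (V (s-2-n) (s-3)) (V (s-2-b) (s-3)) (Or.inl (L.c3 (s+1) (by intro k; simp only [mem_V, mem_J, mem_Ng, *] <;> omega) (by intro k; simp only [mem_V, mem_J, mem_Ng, *] <;> omega))) (Or.inr (L.c2 (3-s) (by omega) (by intro k; simp only [mem_V, mem_J, mem_Ng, *] <;> omega) (by intro k; simp only [mem_V, mem_J, mem_Ng, *] <;> omega))) (s-2-n) (s) ((s-2-n) - 1) (by simp only [mem_V, mem_J, mem_Ng, *] <;> (intros; omega)) (by simp only [mem_V, mem_J, mem_Ng, *] <;> (intros; omega)) (by simp only [mem_V, mem_J, mem_Ng, *] <;> (intros; omega)) (by simp only [mem_V, mem_J, mem_Ng, *] <;> (intros; omega)) (by simp only [mem_V, mem_J, mem_Ng, *] <;> (intros; omega)) (by simp only [mem_V, mem_J, mem_Ng, *] <;> (intros; omega)) (by simp only [mem_V, mem_J, mem_Ng, *] <;> (intros; omega)) (by simp only [mem_V, mem_J, mem_Ng, *] <;> (intros; omega)) (by omega)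
    · by_cases hc6 : b = 1 ∧ n = 1
      · exact leafE (s) (s-2) (V (s+1) (s+a)) (V (s+1) (s+m)) (V (s-1) (s-1)) (V (s-2-b) (s-3)) (Or.inl (L.c2 (s+1) (by omega) (by intro k; simp only [mem_V, mem_J, mem_Ng, *] <;> omega) (by intro k; simp only [mem_V, mem_J, mem_Ng, *] <;> omega))) (Or.inl (L.c3 (s-1) (by intro k; simp only [mem_V, mem_J, mem_Ng, *] <;> omega) (by intro k; simp only [mem_V, mem_J, mem_Ng, *] <;> omega))) (s-2) (s+m) ((s-2) - 1) (by simp only [mem_V, mem_J, mem_Ng, *] <;> (intros; omega)) (by simp only [mem_V, mem_J, mem_Ng, *] <;> (intros; omega)) (by simp only [mem_V, mem_J, mem_Ng, *] <;> (intros; omega)) (by simp only [mem_V, mem_J, mem_Ng, *] <;> (intros; omega)) (by simp only [mem_V, mem_J, mem_Ng, *] <;> (intros; omega)) (by simp only [mem_V, mem_J, mem_Ng, *] <;> (intros; omega)) (by simp only [mem_V, mem_J, mem_Ng, *] <;> (intros; omega)) (by simp only [mem_V, mem_J, mem_Ng, *] <;> (intros; omega)) (by omega)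
      · exact leafE (s) (s-2) (V (s+1) (s+a)) (V (s+1) (s+m)) (V (s-2-n) (s-3)) (V (s-2-b) (s-3)) (Or.inl (L.c2 (s+1) (by omega) (by intro k; simp only [mem_V, mem_J, mem_Ng, *] <;> omega) (by intro k; simp only [mem_V, mem_J, mem_Ng, *] <;> omega))) (Or.inr (L.c2 (3-s) (by omega) (by intro k; simp only [mem_V, mem_J, mem_Ng, *] <;> omega) (by intro k; simp only [mem_V, mem_J, mem_Ng, *] <;> omega))) (s-2-n) (s+m) (s-1) (by simp only [mem_V, mem_J, mem_Ng, *] <;> (intros; omega)) (by simp only [mem_V, mem_J, mem_Ng, *] <;> (intros; omega)) (by simp only [mem_V, mem_J, mem_Ng, *] <;> (intros; omega)) (by simp only [mem_V, mem_J, mem_Ng, *] <;> (intros; omega)) (by simp only [mem_V, mem_J, mem_Ng, *] <;> (intros; omega)) (by simp only [mem_V, mem_J, mem_Ng, *] <;> (intros; omega)) (by simp only [mem_V, mem_J, mem_Ng, *] <;> (intros; omega)) (by simp only [mem_V, mem_J, mem_Ng, *] <;> (intros; omega)) (by omega)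
  · by_cases hc4 : a = 1 ∧ m = 1
    · by_cases hc6 : b = 1 ∧ n = 1
      · exact leafE (s+1) (s-1) (V (s) (s)) (V (s+2) (s+2)) (V (s) (s)) (V (s-2) (s-2)) (Or.inr (L.c3 (-s) (by intro k; simp only [mem_V, mem_J, mem_Ng, *] <;> omega) (by intro k; simp only [mem_V, mem_J, mem_Ng, *] <;> omega))) (Or.inl (L.c3 (s) (by intro k; simp only [mem_V, mem_J, mem_Ng, *] <;> omega) (by intro k; simp only [mem_V, mem_J, mem_Ng, *] <;> omega))) (s-1) (s+2) ((s-1) - 1) (by simp only [mem_V, mem_J, mem_Ng, *] <;> (intros; omega)) (by simp only [mem_V, mem_J, mem_Ng, *] <;> (intros; omega)) (by simp only [mem_V, mem_J, mem_Ng, *] <;> (intros; omega)) (by simp only [mem_V, mem_J, mem_Ng, *] <;> (intros; omega)) (by simp only [mem_V, mem_J, mem_Ng, *] <;> (intros; omega)) (by simp only [mem_V, mem_J, mem_Ng, *] <;> (intros; omega)) (by simp only [mem_V, mem_J, mem_Ng, *] <;> (intros; omega)) (by simp only [mem_V, mem_J, mem_Ng, *] <;> (intros; omega)) (by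 omega)
      · exact leafE (s) (s-1) (V (s+1) (s+a)) (V (s+2) (s+2)) (V (s-1-n) (s-2)) (V (s-1-b) (s-2)) (Or.inl (L.c1a (s+1) (by intro k; simp only [mem_V, mem_J, mem_Ng, *] <;> omega) (by intro k; simp only [mem_V, mem_J, mem_Ng, *] <;> omega))) (Or.inr (L.c2 (2-s) (by omega) (by intro k; simp only [mem_V, mem_J, mem_Ng, *] <;> omega) (by intro k; simp only [mem_V, mem_J, mem_Ng, *] <;> omega))) (s-1-n) (s+2) (s+1) (by simp only [mem_V, mem_J, mem_Ng, *] <;> (intros; omega)) (by simp only [mem_V, mem_J, mem_Ng, *] <;> (intros; omega)) (by simp only [mem_V, mem_J, mem_Ng, *] <;> (intros; omega)) (by simp only [mem_V, mem_J, mem_Ng, *] <;> (intros; omega)) (by simp only [mem_V, mem_J, mem_Ng, *] <;> (intros; omega)) (by simp only [mem_V, mem_J, mem_Ng, *] <;> (intros; omega)) (by simp only [mem_V, mem_J, mem_Ng, *] <;> (intros; omega)) (by simp only [mem_V, mem_J, mem_Ng, *] <;> (intros; omega)) (by omega)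
    · by_cases hc6 : b = 1 ∧ n = 1
      · exact leafE (s) (s-1) (V (s+1) (s+a)) (V (s+1) (s+m)) (V (s-3) (s-3)) (V (s-1-b) (s-2)) (Or.inl (L.c2 (s+1) (by omega) (by intro k; simp only [mem_V, mem_J, mem_Ng, *] <;> omega) (by intro k; simp only [mem_V, mem_J, mem_Ng, *] <;> omega))) (Or.inl (L.c1a (s-3) (by intro k; simp only [mem_V, mem_J, mem_Ng, *] <;> omega) (by intro k; simp only [mem_V, mem_J, mem_Ng, *] <;> omega))) (s-3) (s+m) (s-2) (by simp only [mem_V, mem_J, mem_Ng, *] <;> (intros; omega)) (by simp only [mem_V, mem_J, mem_Ng, *] <;> (intros; omega)) (by simp only [mem_V, mem_J, mem_Ng, *] <;> (intros; omega)) (by simp only [mem_V, mem_J, mem_Ng, *] <;> (intros; omega)) (by simp only [mem_V, mem_J, mem_Ng, *] <;> (intros; omega)) (by simp only [mem_V, mem_J, mem_Ng, *] <;> (intros; omega)) (by simp only [mem_V, mem_J, mem_Ng, *] <;> (intros; omega)) (by simp only [mem_V, mem_J, mem_Ng, *] <;> (intros; omega)) (by omega)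
      · exact leafE (s) (s-1) (V (s+1) (s+a)) (V (s+1) (s+m)) (V (s-1-n) (s-2)) (V (s-1-b) (s-2)) (Or.inl (L.c2 (s+1) (by omega) (by intro k; simp only [mem_V, mem_J, mem_Ng, *] <;> omega) (by intro k; simp only [mem_V, mem_J, mem_Ng, *] <;> omega))) (Or.inr (L.c2 (2-s) (by omega) (by intro k; simp only [mem_V, mem_J, mem_Ng, *] <;> omega) (by intro k; simp only [mem_V, mem_J, mem_Ng, *] <;> omega))) (s-1-n) (s+m) ((s-1-n) - 1) (by simp only [mem_V, mem_J, mem_Ng, *] <;> (intros; omega)) (by simp only [mem_V, mem_J, mem_Ng, *] <;> (intros; omega)) (by simp only [mem_V, mem_J, mem_Ng, *] <;> (intros; omega)) (by simp only [mem_V, mem_J, mem_Ng, *] <;> (intros; omega)) (by simp only [mem_V, mem_J, mem_Ng, *] <;> (intros; omega)) (by simp only [mem_V, mem_J, mem_Ng, *] <;> (intros; omega)) (by simp only [mem_V, mem_J, mem_Ng, *] <;> (intros; omega)) (by simp only [mem_V, mem_J, mem_Ng, *] <;> (intros; omega)) (by omega)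
  · exact leafE (r-1) (r) (V (r) (r-1+a)) (V (r-1-m) (r-2)) (V (r+1) (r+n)) (V (r+2) (r+1+b)) (Or.inl (L.c3 (r) (by intro k; simp only [mem_V, mem_J, mem_Ng, *] <;> omega) (by intro k; simp only [mem_V, mem_J, mem_Ng, *] <;> omega))) (Or.inl (L.c1a (r+1) (by intro k; simp only [mem_V, mem_J, mem_Ng, *] <;> omega) (by intro k; simp only [mem_V, mem_J, mem_Ng, *] <;> omega))) (r-1-m) (r+n) ((r-1-m) - 1) (by simp only [mem_V, mem_J, mem_Ng, *] <;> (intros; omega)) (by simp only [mem_V, mem_J, mem_Ng, *] <;> (intros; omega)) (by simp only [mem_V, mem_J, mem_Ng, *] <;> (intros; omega)) (by simp only [mem_V, mem_J, mem_Ng, *] <;> (intros; omega)) (by simp only [mem_V, mem_J, mem_Ng, *] <;> (intros; omega)) (by simp only [mem_V, mem_J, mem_Ng, *] <;> (intros; omega)) (by simp only [mem_V, mem_J, mem_Ng, *] <;> (intros; omega)) (by simp only [mem_V, mem_J, mem_Ng, *] <;> (intros; omega)) (by omega)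
  · exact leafE (r) (r-1) (V (r+2) (r+1+a)) (V (r+1) (r+m)) (V (r-1-n) (r-2)) (V (r) (r-1+b)) (Or.inl (L.c1b (r+1) (by intro k; simp only [mem_V, mem_J, mem_Ng, *] <;> omega) (by intro k; simp only [mem_V, mem_J, mem_Ng, *] <;> omega))) (Or.inr (L.c3 (2-r) (by intro k; simp only [mem_V, mem_J, mem_Ng, *] <;> omega) (by intro k; simp only [mem_V, mem_J, mem_Ng, *] <;> omega))) (r-1-n) (r+m) ((r-1-n) - 1) (by simp only [mem_V, mem_J, mem_Ng, *] <;> (intros; omega)) (by simp only [mem_V, mem_J, mem_Ng, *] <;> (intros; omega)) (by simp only [mem_V, mem_J, mem_Ng, *] <;> (intros; omega)) (by simp only [mem_V, mem_J, mem_Ng, *] <;> (intros; omega)) (by simp only [mem_V, mem_J, mem_Ng, *] <;> (intros; omega)) (by simp only [mem_V, mem_J, mem_Ng, *] <;> (intros; omega)) (by simp only [mem_V, mem_J, mem_Ng, *] <;> (intros; omega)) (by simp only [mem_V, mem_J, mem_Ng, *] <;> (intros; omega)) (by omega)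
  · by_cases hc4 : a = 1 ∧ m = 1
    · exact leafE (r-1) (r) (V (r-1-a) (r-2)) (V (r-3) (r-3)) (V (r+1) (r+n)) (V (r+2) (r+1+b)) (Or.inl (L.c1b (r-3) (by intro k; simp only [mem_V, mem_J, mem_Ng, *] <;> omega) (by intro k; simp only [mem_V, mem_J, mem_Ng, *] <;> omega))) (Or.inl (L.c1a (r+1) (by intro k; simp only [mem_V, mem_J, mem_Ng, *] <;> omega) (by intro k; simp only [mem_V, mem_J, mem_Ng, *] <;> omega))) (r-3) (r+n) (r-2) (by simp only [mem_V, mem_J, mem_Ng, *] <;> (intros; omega)) (by simp only [mem_V, mem_J, mem_Ng, *] <;> (intros; omega)) (by simp only [mem_V, mem_J, mem_Ng, *] <;> (intros; omega)) (by simp only [mem_V, mem_J, mem_Ng, *] <;> (intros; omega)) (by simp only [mem_V, mem_J, mem_Ng, *] <;> (intros; omega)) (by simp only [mem_V, mem_J, mem_Ng, *] <;> (intros; omega)) (by simp only [mem_V, mem_J, mem_Ng, *] <;> (intros; omega)) (by simp only [mem_V, mem_J, mem_Ng, *] <;> (intros; omega)) (by omega)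
    · exact leafE (r-1) (r) (V (r-1-a) (r-2)) (V (r-1-m) (r-2)) (V (r+1) (r+n)) (V (r+2) (r+1+b)) (Or.inr (L.c2 (2-r) (by omega) (by intro k; simp only [mem_V, mem_J, mem_Ng, *] <;> omega) (by intro k; simp only [mem_V, mem_J, mem_Ng, *] <;> omega))) (Or.inl (L.c1a (r+1) (by intro k; simp only [mem_V, mem_J, mem_Ng, *] <;> omega) (by intro k; simp only [mem_V, mem_J, mem_Ng, *] <;> omega))) (r-1-m) (r+n) ((r-1-m) - 1) (by simp only [mem_V, mem_J, mem_Ng, *] <;> (intros; omega)) (by simp only [mem_V, mem_J, mem_Ng, *] <;> (intros; omega)) (by simp only [mem_V, mem_J, mem_Ng, *] <;> (intros; omega)) (by simp only [mem_V, mem_J, mem_Ng, *] <;> (intros; omega)) (by simp only [mem_V, mem_J, mem_Ng, *] <;> (intros; omega)) (by simp only [mem_V, mem_J, mem_Ng, *] <;> (intros; omega)) (by simp only [mem_V, mem_J, mem_Ng, *] <;> (intros; omega)) (by simp only [mem_V, mem_J, mem_Ng, *] <;> (intros; omega)) (by omega)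
  · by_cases hc4 : b = 1 ∧ n = 1
    · exact leafE (r) (r-1) (V (r+2) (r+1+a)) (V (r+1) (r+m)) (V (r-3) (r-3)) (V (r-1-b) (r-2)) (Or.inl (L.c1b (r+1) (by intro k; simp only [mem_V, mem_J, mem_Ng, *] <;> omega) (by intro k; simp only [mem_V, mem_J, mem_Ng, *] <;> omega))) (Or.inl (L.c1a (r-3) (by intro k; simp only [mem_V, mem_J, mem_Ng, *] <;> omega) (by intro k; simp only [mem_V, mem_J, mem_Ng, *] <;> omega))) (r-3) (r+m) (r-2) (by simp only [mem_V, mem_J, mem_Ng, *] <;> (intros; omega)) (by simp only [mem_V, mem_J, mem_Ng, *] <;> (intros; omega)) (by simp only [mem_V, mem_J, mem_Ng, *] <;> (intros; omega)) (by simp only [mem_V, mem_J, mem_Ng, *] <;> (intros; omega)) (by simp only [mem_V, mem_J, mem_Ng, *] <;> (intros; omega)) (by simp only [mem_V, mem_J, mem_Ng, *] <;> (intros; omega)) (by simp only [mem_V, mem_J, mem_Ng, *] <;> (intros; omega)) (by simp only [mem_V, mem_J, mem_Ng, *] <;> (intros; omega)) (by omega)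
    · exact leafE (r) (r-1) (V (r+2) (r+1+a)) (V (r+1) (r+m)) (V (r-1-n) (r-2)) (V (r-1-b) (r-2)) (Or.inl (L.c1b (r+1) (by intro k; simp only [mem_V, mem_J, mem_Ng, *] <;> omega) (by intro k; simp only [mem_V, mem_J, mem_Ng, *] <;> omega))) (Or.inr (L.c2 (2-r) (by omega) (by intro k; simp only [mem_V, mem_J, mem_Ng, *] <;> omega) (by intro k; simp only [mem_V, mem_J, mem_Ng, *] <;> omega))) (r-1-n) (r+m) ((r-1-n) - 1) (by simp only [mem_V, mem_J, mem_Ng, *] <;> (intros; omega)) (by simp only [mem_V, mem_J, mem_Ng, *] <;> (intros; omega)) (by simp only [mem_V, mem_J, mem_Ng, *] <;> (intros; omega)) (by simp only [mem_V, mem_J, mem_Ng, *] <;> (intros; omega)) (by simp only [mem_V, mem_J, mem_Ng, *] <;> (intros; omega)) (by simp only [mem_V, mem_J, mem_Ng, *] <;> (intros; omega)) (by simp only [mem_V, mem_J, mem_Ng, *] <;> (intros; omega)) (by simp only [mem_V, mem_J, mem_Ng, *] <;> (intros; omega)) (by omega)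
  · by_cases hc4 : a = 1 ∧ m = 1
    · exact leafE (r-2) (r) (V (r-2-a) (r-3)) (V (r-1) (r-1)) (V (r+1) (r+n)) (V (r+2) (r+1+b)) (Or.inr (L.c3 (3-r) (by intro k; simp only [mem_V, mem_J, mem_Ng, *] <;> omega) (by intro k; simp only [mem_V, mem_J, mem_Ng, *] <;> omega))) (Or.inl (L.c1a (r+1) (by intro k; simp only [mem_V, mem_J, mem_Ng, *] <;> omega) (by intro k; simp only [mem_V, mem_J, mem_Ng, *] <;> omega))) (r-2) (r+n) ((r-2) - 1) (by simp only [mem_V, mem_J, mem_Ng, *] <;> (intros; omega)) (by simp only [mem_V, mem_J, mem_Ng, *] <;> (intros; omega)) (by simp only [mem_V, mem_J, mem_Ng, *] <;> (intros; omega)) (by simp only [mem_V, mem_J, mem_Ng, *] <;> (intros; omega)) (by simp only [mem_V, mem_J, mem_Ng, *] <;> (intros; omega)) (by simp only [mem_V, mem_J, mem_Ng, *] <;> (intros; omega)) (by simp only [mem_V, mem_J, mem_Ng, *] <;> (intros; omega)) (by simp only [mem_V, mem_J, mem_Ng, *] <;> (intros; omega)) (by omega)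
    · exact leafE (r-2) (r) (V (r-2-a) (r-3)) (V (r-2-m) (r-3)) (V (r+1) (r+n)) (V (r+2) (r+1+b)) (Or.inr (L.c2 (3-r) (by omega) (by intro k; simp only [mem_V, mem_J, mem_Ng, *] <;> omega) (by intro k; simp only [mem_V, mem_J, mem_Ng, *] <;> omega))) (Or.inl (L.c1a (r+1) (by intro k; simp only [mem_V, mem_J, mem_Ng, *] <;> omega) (by intro k; simp only [mem_V, mem_J, mem_Ng, *] <;> omega))) (r-2-m) (r+n) (r-1) (by simp only [mem_V, mem_J, mem_Ng, *] <;> (intros; omega)) (by simp only [mem_V, mem_J, mem_Ng, *] <;> (intros; omega)) (by simp only [mem_V, mem_J, mem_Ng, *] <;> (intros; omega)) (by simp only [mem_V, mem_J, mem_Ng, *] <;> (intros; omega)) (by simp only [mem_V, mem_J, mem_Ng, *] <;> (intros; omega)) (by simp only [mem_V, mem_J, mem_Ng, *] <;> (intros; omega)) (by simp only [mem_V, mem_J, mem_Ng, *] <;> (intros; omega)) (by simp only [mem_V, mem_J, mem_Ng, *] <;> (intros; omega)) (by omega)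
  · by_cases hc4 : b = 1 ∧ n = 1
    · exact leafE (r) (r-2) (V (r+2) (r+1+a)) (V (r+1) (r+m)) (V (r-1) (r-1)) (V (r-2-b) (r-3)) (Or.inl (L.c1b (r+1) (by intro k; simp only [mem_V, mem_J, mem_Ng, *] <;> omega) (by intro k; simp only [mem_V, mem_J, mem_Ng, *] <;> omega))) (Or.inl (L.c3 (r-1) (by intro k; simp only [mem_V, mem_J, mem_Ng, *] <;> omega) (by intro k; simp only [mem_V, mem_J, mem_Ng, *] <;> omega))) (r-2) (r+m) ((r-2) - 1) (by simp only [mem_V, mem_J, mem_Ng, *] <;> (intros; omega)) (by simp only [mem_V, mem_J, mem_Ng, *] <;> (intros; omega)) (by simp only [mem_V, mem_J, mem_Ng, *] <;> (intros; omega)) (by simp only [mem_V, mem_J, mem_Ng, *] <;> (intros; omega)) (by simp only [mem_V, mem_J, mem_Ng, *] <;> (intros; omega)) (by simp only [mem_V, mem_J, mem_Ng, *] <;> (intros; omega)) (by simp only [mem_V, mem_J, mem_Ng, *] <;> (intros; omega)) (by simp only [mem_V, mem_J, mem_Ng, *] <;> (intros; omega)) (by omega)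
    · exact leafE (r) (r-2) (V (r+2) (r+1+a)) (V (r+1) (r+m)) (V (r-2-n) (r-3)) (V (r-2-b) (r-3)) (Or.inl (L.c1b (r+1) (by intro k; simp only [mem_V, mem_J, mem_Ng, *] <;> omega) (by intro k; simp only [mem_V, mem_J, mem_Ng, *] <;> omega))) (Or.inr (L.c2 (3-r) (by omega) (by intro k; simp only [mem_V, mem_J, mem_Ng, *] <;> omega) (by intro k; simp only [mem_V, mem_J, mem_Ng, *] <;> omega))) (r-2-n) (r+m) (r-1) (by simp only [mem_V, mem_J, mem_Ng, *] <;> (intros; omega)) (by simp only [mem_V, mem_J, mem_Ng, *] <;> (intros; omega)) (by simp only [mem_V, mem_J, mem_Ng, *] <;> (intros; omega)) (by simp only [mem_V, mem_J, mem_Ng, *] <;> (intros; omega)) (by simp only [mem_V, mem_J, mem_Ng, *] <;> (intros; omega)) (by simp only [mem_V, mem_J, mem_Ng, *] <;> (intros; omega)) (by simp only [mem_V, mem_J, mem_Ng, *] <;> (intros; omega)) (by simp only [mem_V, mem_J, mem_Ng, *] <;> (intros; omega)) (by omega)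

theorem stepN {a m n b : ℕ} {A B : Set ℤ} (h : L (a + 1) b A B) :
    Step a m n b False A B := by
  rcases h with ⟨s, hA, hB⟩ | ⟨s, hA, hB⟩ | ⟨s, h0, hA, hB⟩ | ⟨s, hA, hB⟩ | ⟨s, hA, hB⟩ | ⟨r, h0, hA, hB⟩ | ⟨r, h0, hA, hB⟩ | ⟨r, h0, hA, hB⟩ | ⟨r, h0, hA, hB⟩ | ⟨r, h0, hA, hB⟩ | ⟨r, h0, hA, hB⟩
  · by_cases hc4 : b = 1 ∧ n = 1
    · exact leafN (s) (V (s+1) (s+a)) (V (s-m) (s-1)) (V (s+2) (s+2)) (Or.inl (L.c3 (s+1) (by intro k; simp only [mem_V, mem_J, mem_Ng, *] <;> omega) (by intro k; simp only [mem_V, mem_J, mem_Ng, *] <;> omega))) (Or.inl (L.c1b (s+1) (by intro k; simp only [mem_V, mem_J, mem_Ng, *] <;> omega) (by intro k; simp only [mem_V, mem_J, mem_Ng, *] <;> omega))) (s-m) (s+2) (s+1) (by simp only [mem_V, mem_J, mem_Ng, *] <;> (intros; omega)) (by simp only [mem_V, mem_J, mem_Ng, *] <;> (intros; omega)) (by simp only [mem_V, mem_J, mem_Ng, *] <;> (intros; omega)) (by simp only [mem_V, mem_J, mem_Ng, *] <;> (intros; omega)) (by simp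 only [mem_V, mem_J, mem_Ng, *] <;> (intros; omega))
    · exact leafN (s) (V (s+1) (s+a)) (V (s-m) (s-1)) (V (s+1) (s+n)) (Or.inl (L.c3 (s+1) (by intro k; simp only [mem_V, mem_J, mem_Ng, *] <;> omega) (by intro k; simp only [mem_V, mem_J, mem_Ng, *] <;> omega))) (Or.inl (L.c2 (s+1) (by omega) (by intro k; simp only [mem_V, mem_J, mem_Ng, *] <;> omega) (by intro k; simp only [mem_V, mem_J, mem_Ng, *] <;> omega))) (s-m) (s+n) ((s-m) - 1) (by simp only [mem_V, mem_J, mem_Ng, *] <;> (intros; omega)) (by simp only [mem_V, mem_J, mem_Ng, *] <;> (intros; omega)) (by simp only [mem_V, mem_J, mem_Ng, *] <;> (intros; omega)) (by simp only [mem_V, mem_J, mem_Ng, *] <;> (intros; omega)) (by simp only [mem_V, mem_J, mem_Ng, *] <;> (intros; omega))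
  · by_cases hc4 : a = 1 ∧ m = 1
    · exact leafN (s+1) (V (s+2) (s+1+a)) (V (s) (s)) (V (s-n) (s-1)) (Or.inl (L.c3 (s+2) (by intro k; simp only [mem_V, mem_J, mem_Ng, *] <;> omega) (by intro k; simp only [mem_V, mem_J, mem_Ng, *] <;> omega))) (Or.inr (L.c4 (1-s) (by intro k; simp only [mem_V, mem_J, mem_Ng, *] <;> omega) (by intro k; simp only [mem_V, mem_J, mem_Ng, *] <;> omega))) (s-n) (s+1) ((s-n) - 1) (by simp only [mem_V, mem_J, mem_Ng, *] <;> (intros; omega)) (by simp only [mem_V, mem_J, mem_Ng, *] <;> (intros; omega)) (by simp only [mem_V, mem_J, mem_Ng, *] <;> (intros; omega)) (by simp only [mem_V, mem_J, mem_Ng, *] <;> (intros; omega)) (by simp only [mem_V, mem_J, mem_Ng, *] <;> (intros; omega))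
    · exact leafN (s+1) (V (s+2) (s+1+a)) (V (s+2) (s+1+m)) (V (s-n) (s-1)) (Or.inl (L.c2 (s+2) (by omega) (by intro k; simp only [mem_V, mem_J, mem_Ng, *] <;> omega) (by intro k; simp only [mem_V, mem_J, mem_Ng, *] <;> omega))) (Or.inr (L.c4 (1-s) (by intro k; simp only [mem_V, mem_J, mem_Ng, *] <;> omega) (by intro k; simp only [mem_V, mem_J, mem_Ng, *] <;> omega))) (s-n) (s+1+m) (s) (by simp only [mem_V, mem_J, mem_Ng, *] <;> (intros; omega)) (by simp only [mem_V, mem_J, mem_Ng, *] <;> (intros; omega)) (by simp only [mem_V, mem_J, mem_Ng, *] <;> (intros; omega)) (by simp only [mem_V, mem_J, mem_Ng, *] <;> (intros; omega)) (by simp only [mem_V, mem_J, mem_Ng, *] <;> (intros; omega))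
  · exact leafN (s) (V (s+1) (s+a)) (V (s-m) (s-1)) (V (s+1) (s+n)) (Or.inl (L.c3 (s+1) (by intro k; simp only [mem_V, mem_J, mem_Ng, *] <;> omega) (by intro k; simp only [mem_V, mem_J, mem_Ng, *] <;> omega))) (Or.inl (L.c1b (s) (by intro k; simp only [mem_V, mem_J, mem_Ng, *] <;> omega) (by intro k; simp only [mem_V, mem_J, mem_Ng, *] <;> omega))) (s-m) (s+n) ((s-m) - 1) (by simp only [mem_V, mem_J, mem_Ng, *] <;> (intros; omega)) (by simp only [mem_V, mem_J, mem_Ng, *] <;> (intros; omega)) (by simp only [mem_V, mem_J, mem_Ng, *] <;> (intros; omega)) (by simp only [mem_V, mem_J, mem_Ng, *] <;> (intros; omega)) (by simp only [mem_V, mem_J, mem_Ng, *] <;> (intros; omega))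
  · by_cases hc4 : a = 1 ∧ m = 1
    · exact leafN (s) (V (s+1) (s+a)) (V (s+2) (s+2)) (V (s-n) (s-1)) (Or.inl (L.c1a (s+1) (by intro k; simp only [mem_V, mem_J, mem_Ng, *] <;> omega) (by intro k; simp only [mem_V, mem_J, mem_Ng, *] <;> omega))) (Or.inr (L.c1a (1-s) (by intro k; simp only [mem_V, mem_J, mem_Ng, *] <;> omega) (by intro k; simp only [mem_V, mem_J, mem_Ng, *] <;> omega))) (s-n) (s+2) (s+1) (by simp only [mem_V, mem_J, mem_Ng, *] <;> (intros; omega)) (by simp only [mem_V, mem_J, mem_Ng, *] <;> (intros; omega)) (by simp only [mem_V, mem_J, mem_Ng, *] <;> (intros; omega)) (by simp only [mem_V, mem_J, mem_Ng, *] <;> (intros; omega)) (by simp only [mem_V, mem_J, mem_Ng, *] <;> (intros; omega))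
    · exact leafN (s) (V (s+1) (s+a)) (V (s+1) (s+m)) (V (s-n) (s-1)) (Or.inl (L.c2 (s+1) (by omega) (by intro k; simp only [mem_V, mem_J, mem_Ng, *] <;> omega) (by intro k; simp only [mem_V, mem_J, mem_Ng, *] <;> omega))) (Or.inr (L.c1a (1-s) (by intro k; simp only [mem_V, mem_J, mem_Ng, *] <;> omega) (by intro k; simp only [mem_V, mem_J, mem_Ng, *] <;> omega))) (s-n) (s+m) ((s-n) - 1) (by simp only [mem_V, mem_J, mem_Ng, *] <;> (intros; omega)) (by simp only [mem_V, mem_J, mem_Ng, *] <;> (intros; omega)) (by simp only [mem_V, mem_J, mem_Ng, *] <;> (intros; omega)) (by simp only [mem_V, mem_J, mem_Ng, *] <;> (intros; omega)) (by simp only [mem_V, mem_J, mem_Ng, *] <;> (intros; omega))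
  · by_cases hc4 : a = 1 ∧ m = 1
    · by_cases hc6 : b = 1 ∧ n = 1
      · exact leafN (s) (V (s+1) (s+a)) (V (s-1) (s-1)) (V (s-2) (s-2)) (Or.inl (L.c3 (s+1) (by intro k; simp only [mem_V, mem_J, mem_Ng, *] <;> omega) (by intro k; simp only [mem_V, mem_J, mem_Ng, *] <;> omega))) (Or.inl (L.c1a (s-2) (by intro k; simp only [mem_V, mem_J, mem_Ng, *] <;> omega) (by intro k; simp only [mem_V, mem_J, mem_Ng, *] <;> omega))) (s-2) (s) ((s-2) - 1) (by simp only [mem_V, mem_J, mem_Ng, *] <;> (intros; omega)) (by simp only [mem_V, mem_J, mem_Ng, *] <;> (intros; omega)) (by simp only [mem_V, mem_J, mem_Ng, *] <;> (intros; omega)) (by simp only [mem_V, mem_J, mem_Ng, *] <;> (intros; omega)) (by simp only [mem_V, mem_J, mem_Ng, *] <;> (intros; omega))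
      · exact leafN (s) (V (s+1) (s+a)) (V (s+2) (s+2)) (V (s-n) (s-1)) (Or.inl (L.c1a (s+1) (by intro k; simp only [mem_V, mem_J, mem_Ng, *] <;> omega) (by intro k; simp only [mem_V, mem_J, mem_Ng, *] <;> omega))) (Or.inr (L.c2 (1-s) (by omega) (by intro k; simp only [mem_V, mem_J, mem_Ng, *] <;> omega) (by intro k; simp only [mem_V, mem_J, mem_Ng, *] <;> omega))) (s-n) (s+2) (s+1) (by simp only [mem_V, mem_J, mem_Ng, *] <;> (intros; omega)) (by simp only [mem_V, mem_J, mem_Ng, *] <;> (intros; omega)) (by simp only [mem_V, mem_J, mem_Ng, *] <;> (intros; omega)) (by simp only [mem_V, mem_J, mem_Ng, *] <;> (intros; omega)) (by simp only [mem_V, mem_J, mem_Ng, *] <;> (intros; omega))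
    · by_cases hc6 : b = 1 ∧ n = 1
      · exact leafN (s) (V (s+1) (s+a)) (V (s+1) (s+m)) (V (s-2) (s-2)) (Or.inl (L.c2 (s+1) (by omega) (by intro k; simp only [mem_V, mem_J, mem_Ng, *] <;> omega) (by intro k; simp only [mem_V, mem_J, mem_Ng, *] <;> omega))) (Or.inl (L.c1a (s-2) (by intro k; simp only [mem_V, mem_J, mem_Ng, *] <;> omega) (by intro k; simp only [mem_V, mem_J, mem_Ng, *] <;> omega))) (s-2) (s+m) (s-1) (by simp only [mem_V, mem_J, mem_Ng, *] <;> (intros; omega)) (by simp only [mem_V, mem_J, mem_Ng, *] <;> (intros; omega)) (by simp only [mem_V, mem_J, mem_Ng, *] <;> (intros; omega)) (by simp only [mem_V, mem_J, mem_Ng, *] <;> (intros; omega)) (by simp only [mem_V, mem_J, mem_Ng, *] <;> (intros; omega))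
      · exact leafN (s) (V (s+1) (s+a)) (V (s+1) (s+m)) (V (s-n) (s-1)) (Or.inl (L.c2 (s+1) (by omega) (by intro k; simp only [mem_V, mem_J, mem_Ng, *] <;> omega) (by intro k; simp only [mem_V, mem_J, mem_Ng, *] <;> omega))) (Or.inr (L.c2 (1-s) (by omega) (by intro k; simp only [mem_V, mem_J, mem_Ng, *] <;> omega) (by intro k; simp only [mem_V, mem_J, mem_Ng, *] <;> omega))) (s-n) (s+m) ((s-n) - 1) (by simp only [mem_V, mem_J, mem_Ng, *] <;> (intros; omega)) (by simp only [mem_V, mem_J, mem_Ng, *] <;> (intros; omega)) (by simp only [mem_V, mem_J, mem_Ng, *] <;> (intros; omega)) (by simp only [mem_V, mem_J, mem_Ng, *] <;> (intros; omega)) (by simp only [mem_V, mem_J, mem_Ng, *] <;> (intros; omega))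
  · by_cases hc4 : a = 1 ∧ m = 1
    · exact leafN (r-1) (V (r) (r-1+a)) (V (r+1) (r+1)) (V (r-1-n) (r-2)) (Or.inl (L.c1a (r) (by intro k; simp only [mem_V, mem_J, mem_Ng, *] <;> omega) (by intro k; simp only [mem_V, mem_J, mem_Ng, *] <;> omega))) (Or.inl (L.c9 (r) (by omega) (by intro k; simp only [mem_V, mem_J, mem_Ng, *] <;> omega) (by intro k; simp only [mem_V, mem_J, mem_Ng, *] <;> omega))) (r-1-n) (r+1) (r) (by simp only [mem_V, mem_J, mem_Ng, *] <;> (intros; omega)) (by simp only [mem_V, mem_J, mem_Ng, *] <;> (intros; omega)) (by simp only [mem_V, mem_J, mem_Ng, *] <;> (intros; omega)) (by simp only [mem_V, mem_J, mem_Ng, *] <;> (intros; omega)) (by simp only [mem_V, mem_J, mem_Ng, *] <;> (intros; omega))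
    · exact leafN (r-1) (V (r) (r-1+a)) (V (r) (r+m-1)) (V (r-1-n) (r-2)) (Or.inl (L.c2 (r) (by omega) (by intro k; simp only [mem_V, mem_J, mem_Ng, *] <;> omega) (by intro k; simp only [mem_V, mem_J, mem_Ng, *] <;> omega))) (Or.inl (L.c9 (r) (by omega) (by intro k; simp only [mem_V, mem_J, mem_Ng, *] <;> omega) (by intro k; simp only [mem_V, mem_J, mem_Ng, *] <;> omega))) (r-1-n) (r+m-1) ((r-1-n) - 1) (by simp only [mem_V, mem_J, mem_Ng, *] <;> (intros; omega)) (by simp only [mem_V, mem_J, mem_Ng, *] <;> (intros; omega)) (by simp only [mem_V, mem_J, mem_Ng, *] <;> (intros; omega)) (by simp only [mem_V, mem_J, mem_Ng, *] <;> (intros; omega)) (by simp only [mem_V, mem_J, mem_Ng, *] <;> (intros; omega))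
  · exact leafN (r) (V (r+2) (r+1+a)) (V (r+1) (r+m)) (V (r-1-n) (r-2)) (Or.inl (L.c1b (r+1) (by intro k; simp only [mem_V, mem_J, mem_Ng, *] <;> omega) (by intro k; simp only [mem_V, mem_J, mem_Ng, *] <;> omega))) (Or.inr (L.c4 (2-r) (by intro k; simp only [mem_V, mem_J, mem_Ng, *] <;> omega) (by intro k; simp only [mem_V, mem_J, mem_Ng, *] <;> omega))) (r-1-n) (r+m) (r-1) (by simp only [mem_V, mem_J, mem_Ng, *] <;> (intros; omega)) (by simp only [mem_V, mem_J, mem_Ng, *] <;> (intros; omega)) (by simp only [mem_V, mem_J, mem_Ng, *] <;> (intros; omega)) (by simp only [mem_V, mem_J, mem_Ng, *] <;> (intros; omega)) (by simp only [mem_V, mem_J, mem_Ng, *] <;> (intros; omega))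
  · exact leafN (r-1) (V (r-1-a) (r-2)) (V (r) (r+m-1)) (V (r-1-n) (r-2)) (Or.inr (L.c3 (2-r) (by intro k; simp only [mem_V, mem_J, mem_Ng, *] <;> omega) (by intro k; simp only [mem_V, mem_J, mem_Ng, *] <;> omega))) (Or.inl (L.c9 (r) (by omega) (by intro k; simp only [mem_V, mem_J, mem_Ng, *] <;> omega) (by intro k; simp only [mem_V, mem_J, mem_Ng, *] <;> omega))) (r-1-n) (r+m-1) ((r-1-n) - 1) (by simp only [mem_V, mem_J, mem_Ng, *] <;> (intros; omega)) (by simp only [mem_V, mem_J, mem_Ng, *] <;> (intros; omega)) (by simp only [mem_V, mem_J, mem_Ng, *] <;> (intros; omega)) (by simp only [mem_V, mem_J, mem_Ng, *] <;> (intros; omega)) (by simp only [mem_V, mem_J, mem_Ng, *] <;> (intros; omega))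
  · by_cases hc4 : b = 1 ∧ n = 1
    · exact leafN (r) (V (r+2) (r+1+a)) (V (r+1) (r+m)) (V (r-2) (r-2)) (Or.inl (L.c1b (r+1) (by intro k; simp only [mem_V, mem_J, mem_Ng, *] <;> omega) (by intro k; simp only [mem_V, mem_J, mem_Ng, *] <;> omega))) (Or.inl (L.c1a (r-2) (by intro k; simp only [mem_V, mem_J, mem_Ng, *] <;> omega) (by intro k; simp only [mem_V, mem_J, mem_Ng, *] <;> omega))) (r-2) (r+m) (r-1) (by simp only [mem_V, mem_J, mem_Ng, *] <;> (intros; omega)) (by simp only [mem_V, mem_J, mem_Ng, *] <;> (intros; omega)) (by simp only [mem_V, mem_J, mem_Ng, *] <;> (intros; omega)) (by simp only [mem_V, mem_J, mem_Ng, *] <;> (intros; omega)) (by simp only [mem_V, mem_J, mem_Ng, *] <;> (intros; omega))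
    · exact leafN (r) (V (r+2) (r+1+a)) (V (r+1) (r+m)) (V (r-n) (r-1)) (Or.inl (L.c1b (r+1) (by intro k; simp only [mem_V, mem_J, mem_Ng, *] <;> omega) (by intro k; simp only [mem_V, mem_J, mem_Ng, *] <;> omega))) (Or.inr (L.c2 (1-r) (by omega) (by intro k; simp only [mem_V, mem_J, mem_Ng, *] <;> omega) (by intro k; simp only [mem_V, mem_J, mem_Ng, *] <;> omega))) (r-n) (r+m) ((r-n) - 1) (by simp only [mem_V, mem_J, mem_Ng, *] <;> (intros; omega)) (by simp only [mem_V, mem_J, mem_Ng, *] <;> (intros; omega)) (by simp only [mem_V, mem_J, mem_Ng, *] <;> (intros; omega)) (by simp only [mem_V, mem_J, mem_Ng, *] <;> (intros; omega)) (by simp only [mem_V, mem_J, mem_Ng, *] <;> (intros; omega))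
  · by_cases hc4 : a = 1 ∧ m = 1
    · exact leafN (r-2) (V (r-2-a) (r-3)) (V (r-4) (r-4)) (V (r-1) (r+n-2)) (Or.inl (L.c1b (r-4) (by intro k; simp only [mem_V, mem_J, mem_Ng, *] <;> omega) (by intro k; simp only [mem_V, mem_J, mem_Ng, *] <;> omega))) (Or.inl (L.c5 (r) (by omega) (by intro k; simp only [mem_V, mem_J, mem_Ng, *] <;> omega) (by intro k; simp only [mem_V, mem_J, mem_Ng, *] <;> omega))) (r-4) (r+n-2) (r-3) (by simp only [mem_V, mem_J, mem_Ng, *] <;> (intros; omega)) (by simp only [mem_V, mem_J, mem_Ng, *] <;> (intros; omega)) (by simp only [mem_V, mem_J, mem_Ng, *] <;> (intros; omega)) (by simp only [mem_V, mem_J, mem_Ng, *] <;> (intros; omega)) (by simp only [mem_V, mem_J, mem_Ng, *] <;> (intros; omega))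
    · exact leafN (r-2) (V (r-2-a) (r-3)) (V (r-2-m) (r-3)) (V (r-1) (r+n-2)) (Or.inr (L.c2 (3-r) (by omega) (by intro k; simp only [mem_V, mem_J, mem_Ng, *] <;> omega) (by intro k; simp only [mem_V, mem_J, mem_Ng, *] <;> omega))) (Or.inl (L.c5 (r) (by omega) (by intro k; simp only [mem_V, mem_J, mem_Ng, *] <;> omega) (by intro k; simp only [mem_V, mem_J, mem_Ng, *] <;> omega))) (r-2-m) (r+n-2) ((r-2-m) - 1) (by simp only [mem_V, mem_J, mem_Ng, *] <;> (intros; omega)) (by simp only [mem_V, mem_J, mem_Ng, *] <;> (intros; omega)) (by simp only [mem_V, mem_J, mem_Ng, *] <;> (intros; omega)) (by simp only [mem_V, mem_J, mem_Ng, *] <;> (intros; omega)) (by simp only [mem_V, mem_J, mem_Ng, *] <;> (intros; omega))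
  · exact leafN (r) (V (r+2) (r+1+a)) (V (r+1) (r+m)) (V (r-n) (r-1)) (Or.inl (L.c1b (r+1) (by intro k; simp only [mem_V, mem_J, mem_Ng, *] <;> omega) (by intro k; simp only [mem_V, mem_J, mem_Ng, *] <;> omega))) (Or.inr (L.c1a (1-r) (by intro k; simp only [mem_V, mem_J, mem_Ng, *] <;> omega) (by intro k; simp only [mem_V, mem_J, mem_Ng, *] <;> omega))) (r-n) (r+m) ((r-n) - 1) (by simp only [mem_V, mem_J, mem_Ng, *] <;> (intros; omega)) (by simp only [mem_V, mem_J, mem_Ng, *] <;> (intros; omega)) (by simp only [mem_V, mem_J, mem_Ng, *] <;> (intros; omega)) (by simp only [mem_V, mem_J, mem_Ng, *] <;> (intros; omega)) (by simp only [mem_V, mem_J, mem_Ng, *] <;> (intros; omega))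

end Pool.Agent.Q52.Near
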