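import Pool.Agent.Q52.Near.Rules

/-!
The splitting step for all admissible pairs.
-/

namespace Pool.Agent.Q52.Near

set_option linter.unusedSimpArgs false

theorem leaf0E {n b : ℕ} {B : Set ℤ} (y : ℤ) (Q B' : Set ℤ)
    (h2 : F n b Q B') (lo hi h : ℤ)
    (hB : ∀ k, k ∈ B ↔ k = y ∨ k ∈ B') (hy : y ∉ B')
    (hyQ : y ∉ Q) (hT : ∀ k, (k = y ∨ k ∈ Q) ↔
      lo ≤ k ∧ k ≤ hi ∧ k ≠ h) :
    Step0 n b True B := by
  refine ⟨y, Q, B', h2, fun k => ?_, fun _ => hy, fun _ => hyQ, lo, hi, h, fun k => ?_⟩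
  · rw [hB k]; simp
  · rw [← hT k]; simp

theorem leaf0N {n b : ℕ} {B : Set ℤ} (Q : Set ℤ)
    (h2 : F n b Q B) (lo hi h : ℤ) (hT : ∀ k, k ∈ Q ↔
      lo ≤ k ∧ k ≤ hi ∧ k ≠ h) :
    Step0 n b False B := by
  refine ⟨0, Q, B, h2, fun k => ?_, fun hc => hc.elim, fun hc => hc.elim, lo, hi, h, fun k => ?_⟩
  · simp
  · rw [← hT k]; simp

theorem L0_cases {b : ℕ} {A B : Set ℤ} (h : L 0 b A B) :
    (∃ s : ℤ, ∀ k, k ∈ B ↔ s ≤ k ∧ k < s + b) ∨
    (2 ≤ b ∧ ∃ r : ℤ, ∀ k, k ∈ B ↔ k = r ∨ (r + 2 ≤ k ∧ k ≤ r + b)) := by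
  rcases h with ⟨s, hA, hB⟩ | ⟨s, hA, hB⟩ | ⟨s, h0, hA, hB⟩ | ⟨s, hA, hB⟩ | ⟨s, hA, hB⟩ |
    ⟨r, h0, hA, hB⟩ | ⟨r, h0, hA, hB⟩ | ⟨r, h0, hA, hB⟩ | ⟨r, h0, hA, hB⟩ | ⟨r, h0, hA, hB⟩ |
    ⟨r, h0, hA, hB⟩
  · left; exact ⟨s + 1, hB⟩
  · left; exact ⟨s, hB⟩
  · left; exact ⟨s, hB⟩
  · left; exact ⟨s - 1 - b, fun k => by rw [hB k]; omega⟩
  · left; exact ⟨s - b, fun k => by rw [hB k]; omega⟩
  · right; exact ⟨h0, r, hB⟩
  · omega
  · right; exact ⟨h0, r, hB⟩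
  · omega
  · right; exact ⟨h0, r, hB⟩
  · omega

theorem step0E {n b : ℕ} {A B : Set ℤ} (h : L 0 (b + 1) A B) : Step0 n b True B := by
  rcases L0_cases h with ⟨s, hB⟩ | ⟨hb, r, hB⟩
  · exact leaf0E s (V (s - n) (s - 1)) (V (s + 1) (s + b))
      (Or.inr (L.c3 (1 - s) (by intro k; simp only [mem_V, mem_J, mem_Ng, *] <;> omega) (by intro k; simp only [mem_V, mem_J, mem_Ng, *] <;> omega))) (s - n) s (s - n - 1) (by simp only [mem_V, mem_J, mem_Ng, *] <;> (intros; omega)) (by simp only [mem_V, mem_J, mem_Ng, *] <;> (intros; omega)) (by simp only [mem_V, mem_J, mem_Ng, *] <;> (intros; omega)) (by simp only [mem_V, mem_J, mem_Ng, *] <;> (intros; omega))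
  · exact leaf0E r (V (r + 1) (r + n)) (V (r + 2) (r + 1 + b))
      (Or.inl (L.c1a (r + 1) (by intro k; simp only [mem_V, mem_J, mem_Ng, *] <;> omega) (by intro k; simp only [mem_V, mem_J, mem_Ng, *] <;> omega))) r (r + n) (r - 1) (by simp only [mem_V, mem_J, mem_Ng, *] <;> (intros; omega)) (by simp only [mem_V, mem_J, mem_Ng, *] <;> (intros; omega)) (by simp only [mem_V, mem_J, mem_Ng, *] <;> (intros; omega)) (by simp only [mem_V, mem_J, mem_Ng, *] <;> (intros; omega))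

theorem step0N {n b : ℕ} {A B : Set ℤ} (h : L 0 b A B) : Step0 n b False B := by
  rcases L0_cases h with ⟨s, hB⟩ | ⟨hb, r, hB⟩
  · exact leaf0N (V (s - n) (s - 1)) 
      (Or.inr (L.c4 (1 - s) (by intro k; simp only [mem_V, mem_J, mem_Ng, *] <;> omega) (by intro k; simp only [mem_V, mem_J, mem_Ng, *] <;> omega))) (s - n) (s - 1) (s - n - 1) (by simp only [mem_V, mem_J, mem_Ng, *] <;> (intros; omega))
  · exact leaf0N (V (r - n) (r - 1))
      (Or.inl (L.c8 r hb (by intro k; simp only [mem_V, mem_J, mem_Ng, *] <;> omega) (by intro k; simp only [mem_V, mem_J, mem_Ng, *] <;> omega))) (r - n) (r - 1) (r - n - 1) (by simp only [mem_V, mem_J, mem_Ng, *] <;> (intros; omega))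

theorem F_empty_left {b : ℕ} {A B : Set ℤ} (h : F 0 b A B) (k : ℤ) : k ∉ A := by
  have key : ∀ {A B : Set ℤ}, L 0 b A B → ∀ k, k ∉ A := by
    intro A B h k
    rcases h with ⟨s, hA, hB⟩ | ⟨s, hA, hB⟩ | ⟨s, h0, hA, hB⟩ | ⟨s, hA, hB⟩ | ⟨s, hA, hB⟩ |
      ⟨r, h0, hA, hB⟩ | ⟨r, h0, hA, hB⟩ | ⟨r, h0, hA, hB⟩ | ⟨r, h0, hA, hB⟩ | ⟨r, h0, hA, hB⟩ |
      ⟨r, h0, hA, hB⟩ <;> rw [hA k] <;> omega
  rcases h with h | h
  · exact key h k
  · have := key h (-k)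
    rwa [mem_Ng, neg_neg] at this

theorem F_empty_right {a : ℕ} {A B : Set ℤ} (h : F a 0 A B) (k : ℤ) : k ∉ B := by
  have key : ∀ {A B : Set ℤ}, L a 0 A B → ∀ k, k ∉ B := by
    intro A B h k
    rcases h with ⟨s, hA, hB⟩ | ⟨s, hA, hB⟩ | ⟨s, h0, hA, hB⟩ | ⟨s, hA, hB⟩ | ⟨s, hA, hB⟩ |
      ⟨r, h0, hA, hB⟩ | ⟨r, h0, hA, hB⟩ | ⟨r, h0, hA, hB⟩ | ⟨r, h0, hA, hB⟩ | ⟨r, h0, hA, hB⟩ |
      ⟨r, h0, hA, hB⟩ <;> rw [hB k] <;> omega
  rcases h with h | h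
  · exact key h k
  · have := key h (-k)
    rwa [mem_Ng, neg_neg] at this

theorem step_F {a m n b b1 : ℕ} {e : Prop} {A B : Set ℤ} (h : F (a + 1) b1 A B)
    (he : e → b1 = b + 1) (hne : ¬ e → b1 = b) : Step a m n b e A B := by
  by_cases hh : e
  · obtain rfl := he hh
    have : e = True := eq_true hh
    subst this
    rcases h with h | h
    · exact stepE h
    · exact Step_neg (stepE h)
  · obtain rfl := hne hh
    have : e = False := eq_false hh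
    subst this
    rcases h with h | h
    · exact stepN h
    · exact Step_neg (stepN h)

theorem step0_F {n b b1 : ℕ} {e : Prop} {A B : Set ℤ} (h : F 0 b1 A B)
    (he : e → b1 = b + 1) (hne : ¬ e → b1 = b) : Step0 n b e B := by
  by_cases hh : e
  · obtain rfl := he hh
    have : e = True := eq_true hh
    subst this
    rcases h with h | h
    · exact step0E h
    · exact Step0_neg (step0E h)
  · obtain rfl := hne hh
    have : e = False := eq_false hh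
    subst this
    rcases h with h | h
    · exact step0N h
    · exact Step0_neg (step0N h)

theorem F_zero : F 0 0 ∅ ∅ := by
  left
  exact L.c1a 0 (fun k => by simp) (fun k => by simp)

end Pool.Agent.Q52.Near
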